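import Pool.Agent.W959.OR.Conf

set_option autoImplicit false

namespace Pool.Agent.W959.OR

variable {m L K n : ℕ}

/-- the names used by `x` above level `i` -/
def nmAbove (i : ℕ) (x : Fut L K) : Finset (Fin K) :=
  (Finset.univ.filter fun l : Fin (L + 1) => i < (l : ℕ)).image x

lemma card_nmAbove (i : ℕ) (x : Fut L K) : (nmAbove i x).card ≤ L + 1 := by
  refine Finset.card_image_le.trans ((Finset.card_filter_le _ _).trans ?_)
  simp

lemma mem_nmAbove {i : ℕ} {x : Fut L K} {l : Fin (L + 1)} (hl : i < (l : ℕ)) :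
    x l ∈ nmAbove i x := by
  refine Finset.mem_image_of_mem x ?_
  simp [hl]

/-- The induction statement: all futures outside a set of at most `h` names can be achieved. -/
def Claim (m L i z h : ℕ) : Prop :=
  ∀ K n : ℕ, h < K → ∀ (A : Protocol (Node L K n) (Fin n)) (c : ℕ),
    (c + 1) * m ^ (i + 1) ≤ n → ∃ H : Finset (Fin K), H.card ≤ h ∧
      ∀ x : Fut L K, (∀ l : Fin (L + 1), i < (l : ℕ) → x l ∉ H) →
        ∀ Z : Finset (Fin K), Z.card ≤ z → Ach A m i c x Z

lemma claim_zero (hm : 0 < m) (z : ℕ) : Claim m L 0 z (m * (z + 1) * (L + 1 + z)) := by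
  classical
  intro K n hK A c hc
  by_contra hcon
  push Not at hcon
  obtain ⟨a, Z, hbad, -, hdis, hdisZ⟩ := select (nmAbove (L := L) (K := K) 0) (L + 1) z
    (card_nmAbove 0) ∅ (fun x Z => Z.card ≤ z ∧ ¬ Ach A m 0 c x Z) (fun _ _ h => h.1) m (by
      intro H _ hH
      rw [Finset.card_empty, zero_add] at hH
      obtain ⟨x, hx, Z, hZ, hA⟩ := hcon H hH
      refine ⟨x, Z, ⟨hZ, hA⟩, ?_⟩
      rw [Finset.disjoint_left]
      intro y hy hyH
      obtain ⟨l, hl, rfl⟩ := Finset.mem_image.1 hy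
      rw [Finset.mem_filter] at hl
      exact hx l hl.2 hyH)
  obtain ⟨v₀, hv₀⟩ : ∃ v₀ : Fin K, (v₀ : ℕ) = 0 := ⟨⟨0, by omega⟩, rfl⟩
  -- the configuration
  set X : Fin n → Fut L K := fun id l => if (l : ℕ) = 0 then v₀ else a ⟨(id : ℕ) % m, Nat.mod_lt _ hm⟩ l
    with hX
  have hpow : m ^ (0 + 1) = m := by simp
  rw [hpow] at hc
  choose mem hmem1 hmem2 using fun j : Fin m => exists_member hc j
  have hinj : Function.Injective mem := by
    intro j j' hj
    have h1 := hmem2 j
    rw [hj, hmem2 j'] at h1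
    exact (Fin.ext h1).symm
  have hzero : (⟨0, by omega⟩ : Fin (L + 1)) = 0 := rfl
  have hclus : ∀ id id' : Fin n, (id : ℕ) / m = c → (id' : ℕ) / m = c →
      clus m 0 id = clus m 0 id' := by
    intro id id' h h'
    unfold clus
    ext
    simp only [zero_add, pow_one]
    rw [h, h']
  have hXp : ∀ (id : Fin n) (l : Fin (L + 1)), 0 < (l : ℕ) →
      X id l = a ⟨(id : ℕ) % m, Nat.mod_lt _ hm⟩ l := by
    intro id l hl
    rw [hX]
    simp only
    rw [if_neg (by omega)]
  have hXp0 : ∀ (id : Fin n), X id 0 = v₀ := by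
    intro id
    rw [hX]
    simp
  have hsame : ∀ id id' : Fin n, (id : ℕ) / m = c → (id' : ℕ) / m = c → (id : ℕ) % m = (id' : ℕ) % m →
      id = id' := by
    intro id id' h h' hmod
    have e1 := Nat.div_add_mod (id : ℕ) m
    have e2 := Nat.div_add_mod (id' : ℕ) m
    rw [h] at e1
    rw [h'] at e2
    ext
    omega
  -- one packet is late
  have hcap := capacity A (coll m 0 c X) (Finset.univ.image mem) 0
    (node m 0 (mem ⟨0, hm⟩) v₀ false) (node m 0 (mem ⟨0, hm⟩) v₀ true) (by
      intro id hid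
      obtain ⟨j, -, rfl⟩ := Finset.mem_image.1 hid
      rw [coll_pos (by rw [hpow]; exact hmem1 j)]
      have := getElem?_even (m := m) (mem j) (X (mem j)) 0
      rw [hXp0] at this
      have h2 : node (K := K) m (0 : Fin (L + 1)) (mem j) v₀ false =
          node m 0 (mem ⟨0, hm⟩) v₀ false := by
        unfold node
        rw [Fin.val_zero, hclus _ _ (hmem1 j) (hmem1 ⟨0, hm⟩)]
      rw [← h2]
      exact this) (by
      intro id hid
      obtain ⟨j, -, rfl⟩ := Finset.mem_image.1 hid
      rw [coll_pos (by rw [hpow]; exact hmem1 j)]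
      have := getElem?_odd (m := m) (mem j) (X (mem j)) 0
      rw [hXp0] at this
      have h2 : node (K := K) m (0 : Fin (L + 1)) (mem j) v₀ true =
          node m 0 (mem ⟨0, hm⟩) v₀ true := by
        unfold node
        rw [Fin.val_zero, hclus _ _ (hmem1 j) (hmem1 ⟨0, hm⟩)]
      rw [← h2]
      exact this) 0 (fun _ _ => le_rfl) (m - 1)
  have hS : (Finset.univ.image mem).card = m := by
    rw [Finset.card_image_of_injective _ hinj]
    simp
  obtain ⟨p, hpS, hplate⟩ : ∃ p ∈ Finset.univ.image mem,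
      (run A (coll m 0 c X) (0 + (m - 1))).pos p ≤ 0 := by
    by_contra hno
    push Not at hno
    have hall : ((Finset.univ.image mem).filter
        fun i => 0 + 1 ≤ (run A (coll m 0 c X) (0 + (m - 1))).pos i) = Finset.univ.image mem :=
      Finset.filter_true_of_mem (fun p hp => hno p hp)
    rw [hall, hS] at hcap
    omega
  obtain ⟨j, -, rfl⟩ := Finset.mem_image.1 hpS
  have hjm : (⟨(mem j : ℕ) % m, Nat.mod_lt _ hm⟩ : Fin m) = j := Fin.ext (hmem2 j)
  refine (hbad j).2 ⟨X, mem j, ⟨by rw [hpow]; exact hmem1 j, fun id _ => by rw [hXp0 id, hv₀],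
    ?_, ?_, ?_⟩, ?_, ?_⟩
  · intro l _ c' y
    refine le_trans (Finset.card_le_card ?_) (card_block_le m c hm)
    intro id hid
    rw [Finset.mem_filter] at hid ⊢
    refine ⟨hid.1, ?_⟩
    have := hid.2.1
    rwa [hpow] at this
  · intro l hl id id' hid hid' he
    rw [hpow] at hid hid'
    rw [hXp id l hl, hXp id' l hl] at he
    refine hsame id id' hid hid' ?_
    by_contra hne
    have hne' : (⟨(id : ℕ) % m, Nat.mod_lt _ hm⟩ : Fin m) ≠ ⟨(id' : ℕ) % m, Nat.mod_lt _ hm⟩ := by
      intro h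
      exact hne (congrArg Fin.val h)
    refine Finset.disjoint_left.1 (hdis _ _ hne') (mem_nmAbove hl) ?_
    rw [he]
    exact mem_nmAbove hl
  · have : tm m 0 = 0 + (m - 1) := by
      unfold tm
      rw [zero_mul]
    rw [this]
    simpa using hplate
  · intro l hl
    rw [hXp _ l hl, hjm]
  · intro id hid hne l hl
    rw [hpow] at hid
    rw [hXp id l hl]
    have hne' : (⟨(id : ℕ) % m, Nat.mod_lt _ hm⟩ : Fin m) ≠ j := by
      intro h
      refine hne (hsame id (mem j) hid (hmem1 j) ?_)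
      rw [hmem2 j]
      exact congrArg Fin.val h
    exact Finset.disjoint_left.1 (hdisZ _ _ hne') (mem_nmAbove hl)

end Pool.Agent.W959.OR
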