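import Mathlib

set_option autoImplicit false

namespace Pool.Agent.W959.OR

lemma select_aux (R : ℕ → ℕ → Prop) (z : ℕ) : ∀ (m : ℕ) (S : Finset ℕ),
    (∀ b ∈ S, ∀ S' ⊆ S, (∀ a ∈ S', a < b ∧ R b a) → S'.card ≤ z) → m * (z + 1) ≤ S.card →
    ∃ T ⊆ S, T.card = m ∧ ∀ a ∈ T, ∀ b ∈ T, a < b → ¬ R b a := by
  classical
  intro m
  induction m with
  | zero => exact fun S _ _ => ⟨∅, Finset.empty_subset _, rfl, by simp⟩
  | succ m ih =>
    intro S hS hcard
    have hne : S.Nonempty := by
      rw [← Finset.card_pos]
      nlinarith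
    set b := S.max' hne with hb
    have hbS : b ∈ S := S.max'_mem hne
    set S₁ := S.filter fun a => a < b ∧ R b a with hS₁
    set S₂ := S.filter fun a => a < b ∧ ¬ R b a with hS₂
    have hsub : S ⊆ insert b (S₁ ∪ S₂) := by
      intro a ha
      rw [Finset.mem_insert, Finset.mem_union, hS₁, hS₂, Finset.mem_filter, Finset.mem_filter]
      have := S.le_max' a ha
      rcases this.eq_or_lt with h | h
      · exact Or.inl h
      · by_cases hr : R b a
        · exact Or.inr (Or.inl ⟨ha, h, hr⟩)
        · exact Or.inr (Or.inr ⟨ha, h, hr⟩)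
    have h1 : S₁.card ≤ z := hS b hbS S₁ (Finset.filter_subset _ _) (fun a ha => by
      rw [hS₁, Finset.mem_filter] at ha
      exact ha.2)
    have h2 : m * (z + 1) ≤ S₂.card := by
      have h3 := Finset.card_le_card hsub
      have h4 := Finset.card_insert_le b (S₁ ∪ S₂)
      have h5 := Finset.card_union_le S₁ S₂
      have : (m + 1) * (z + 1) = m * (z + 1) + (z + 1) := by ring
      omega
    obtain ⟨T, hT, hTc, hTR⟩ := ih S₂ (fun b' hb' S' hS' h => hS b'
      (Finset.mem_of_mem_filter b' hb') S' (hS'.trans (Finset.filter_subset _ _)) h) h2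
    have hTb : ∀ a ∈ T, a < b ∧ ¬ R b a := fun a ha => (Finset.mem_filter.1 (hT ha)).2
    have hbT : b ∉ T := fun h => lt_irrefl _ (hTb b h).1
    refine ⟨insert b T, ?_, ?_, ?_⟩
    · intro a ha
      rcases Finset.mem_insert.1 ha with rfl | h
      · exact hbS
      · exact Finset.mem_of_mem_filter a (hT h)
    · rw [Finset.card_insert_of_notMem hbT, hTc]
    · intro a ha b' hb' hab
      rcases Finset.mem_insert.1 ha with rfl | h
      · rcases Finset.mem_insert.1 hb' with rfl | h'
        · exact absurd hab (lt_irrefl _)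
        · exact absurd (hTb b' h').1 (by omega)
      · rcases Finset.mem_insert.1 hb' with rfl | h'
        · exact (hTb a h).2
        · exact hTR a h b' h' hab

/-- **Selection.** Suppose that outside every small set of names there is a bad object, each bad
object `a` with a small set `Z` of names. Then there are `m` bad objects with disjoint sets of names
which also avoid the sets `Z` of each other. -/
lemma select {α β : Type} [DecidableEq β] (nm : α → Finset β) (N z : ℕ)
    (hN : ∀ a, (nm a).card ≤ N) (H₀ : Finset β) (bad : α → Finset β → Prop)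
    (hz : ∀ a Z, bad a Z → Z.card ≤ z) (m : ℕ)
    (h : ∀ H : Finset β, H₀ ⊆ H → H.card ≤ H₀.card + m * (z + 1) * (N + z) →
      ∃ a Z, bad a Z ∧ Disjoint (nm a) H) :
    ∃ (a : Fin m → α) (Z : Fin m → Finset β), (∀ k, bad (a k) (Z k)) ∧
      (∀ k, Disjoint (nm (a k)) H₀) ∧
      (∀ k k', k ≠ k' → Disjoint (nm (a k)) (nm (a k'))) ∧
      (∀ k k', k ≠ k' → Disjoint (nm (a k)) (Z k')) := by
  classical
  -- the sequence
  have hseq : ∀ M ≤ m * (z + 1), ∃ (f : ℕ → α) (Z : ℕ → Finset β), ∀ k < M, bad (f k) (Z k) ∧
      Disjoint (nm (f k)) H₀ ∧ ∀ j < k, Disjoint (nm (f k)) (nm (f j)) ∧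
        Disjoint (nm (f k)) (Z j) := by
    intro M
    induction M with
    | zero =>
      intro _
      obtain ⟨a, Z, -⟩ := h H₀ (Finset.Subset.refl _) (Nat.le_add_right _ _)
      exact ⟨fun _ => a, fun _ => Z, fun k hk => absurd hk (Nat.not_lt_zero k)⟩
    | succ M ih =>
      intro hM
      obtain ⟨f, Z, hf⟩ := ih (by omega)
      set H : Finset β := H₀ ∪ (Finset.range M).biUnion (fun j => nm (f j) ∪ Z j) with hH
      have hcard : H.card ≤ H₀.card + m * (z + 1) * (N + z) := by
        have h1 : ((Finset.range M).biUnion (fun j => nm (f j) ∪ Z j)).card ≤ M * (N + z) := by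
          refine (Finset.card_biUnion_le).trans ?_
          calc ∑ j ∈ Finset.range M, (nm (f j) ∪ Z j).card
              ≤ ∑ _j ∈ Finset.range M, (N + z) := by
                refine Finset.sum_le_sum fun j hj => (Finset.card_union_le _ _).trans ?_
                exact Nat.add_le_add (hN _) (hz _ _ (hf j (Finset.mem_range.1 hj)).1)
            _ = M * (N + z) := by simp
        have h2 : M * (N + z) ≤ m * (z + 1) * (N + z) := Nat.mul_le_mul_right _ (by omega)
        have h3 := Finset.card_union_le H₀ ((Finset.range M).biUnion (fun j => nm (f j) ∪ Z j))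
        rw [hH]
        omega
      obtain ⟨a, Z', hbad, hdis⟩ := h H Finset.subset_union_left hcard
      rw [hH, Finset.disjoint_union_right, Finset.disjoint_biUnion_right] at hdis
      refine ⟨Function.update f M a, Function.update Z M Z', fun k hk => ?_⟩
      rcases Nat.lt_succ_iff_lt_or_eq.1 hk with hk' | rfl
      · rw [Function.update_of_ne (by omega), Function.update_of_ne (by omega)]
        refine ⟨(hf k hk').1, (hf k hk').2.1, fun j hj => ?_⟩
        rw [Function.update_of_ne (by omega), Function.update_of_ne (by omega)]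
        exact (hf k hk').2.2 j hj
      · rw [Function.update_self, Function.update_self]
        refine ⟨hbad, hdis.1, fun j hj => ?_⟩
        rw [Function.update_of_ne (by omega), Function.update_of_ne (by omega)]
        have := hdis.2 j (Finset.mem_range.2 hj)
        rw [Finset.disjoint_union_right] at this
        exact this
  obtain ⟨f, Z, hf⟩ := hseq _ le_rfl
  obtain ⟨T, hT, hTc, hTR⟩ := select_aux (fun b a => ¬ Disjoint (nm (f a)) (Z b)) z m
    (Finset.range (m * (z + 1))) (by
      intro b hb S' hS' hR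
      -- one element of `Z b` for each element of `S'`
      have hex : ∀ a ∈ S', ∃ y, y ∈ nm (f a) ∧ y ∈ Z b := by
        intro a ha
        have := (hR a ha).2
        rw [Finset.not_disjoint_iff] at this
        exact this
      rcases S'.eq_empty_or_nonempty with h0 | ⟨a0, ha0⟩
      · rw [h0]
        exact Nat.zero_le _
      have : Nonempty β := ⟨(hex a0 ha0).choose⟩
      choose! g hg1 hg2 using hex
      have h1 : S'.card ≤ (Z b).card := by
        refine Finset.card_le_card_of_injOn g (fun a ha => hg2 a ha) ?_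
        intro a ha a' ha' haa
        by_contra hne
        have hlt : ∀ x ∈ S', x < m * (z + 1) := fun x hx => Finset.mem_range.1 (hS' hx)
        rcases lt_or_gt_of_ne hne with hlt' | hlt'
        · have := ((hf a' (hlt a' ha')).2.2 a hlt').1
          exact (Finset.disjoint_left.1 this) (hg1 a' ha') (haa ▸ hg1 a ha)
        · have := ((hf a (hlt a ha)).2.2 a' hlt').1
          exact (Finset.disjoint_left.1 this) (hg1 a ha) (haa ▸ hg1 a' ha')
      exact h1.trans (hz _ _ (hf b (Finset.mem_range.1 hb)).1)) (by simp)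
  set e := T.orderEmbOfFin hTc with he
  have heT : ∀ k, e k ∈ T := fun k => T.orderEmbOfFin_mem hTc k
  have hlt : ∀ k, e k < m * (z + 1) := fun k => Finset.mem_range.1 (hT (heT k))
  refine ⟨fun k => f (e k), fun k => Z (e k), fun k => (hf _ (hlt k)).1,
    fun k => (hf _ (hlt k)).2.1, fun k k' hkk => ?_, fun k k' hkk => ?_⟩
  · rcases lt_or_gt_of_ne hkk with h1 | h1
    · exact ((hf _ (hlt k')).2.2 _ (e.lt_iff_lt.2 h1)).1.symm
    · exact ((hf _ (hlt k)).2.2 _ (e.lt_iff_lt.2 h1)).1
  · rcases lt_or_gt_of_ne hkk with h1 | h1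
    · exact not_not.1 (hTR _ (heT k) _ (heT k') (e.lt_iff_lt.2 h1))
    · exact ((hf _ (hlt k)).2.2 _ (e.lt_iff_lt.2 h1)).2

end Pool.Agent.W959.OR
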