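import Pool.Agent.W959.OR.Core
import Pool.Agent.W959.OR.Select

set_option autoImplicit false

namespace Pool.Agent.W959.OR

/-- the nodes: level, number of the cluster, name in the cluster, side -/
abbrev Node (L K n : ℕ) := Fin (L + 1) × Fin (n + 1) × Fin K × Bool

/-- the names of the nodes visited at the levels `0, …, L` -/
abbrev Fut (L K : ℕ) := Fin (L + 1) → Fin K

variable {m L K n : ℕ}

/-- the number of the cluster of packet `id` at level `l` -/
def clus (m : ℕ) (l : ℕ) (id : Fin n) : Fin (n + 1) :=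
  ⟨(id : ℕ) / m ^ (l + 1), lt_of_le_of_lt (Nat.div_le_self _ _) (by omega)⟩

def node (m : ℕ) (l : Fin (L + 1)) (id : Fin n) (y : Fin K) (b : Bool) : Node L K n :=
  (l, clus m l id, y, b)

/-- the level of position `t` -/
def lev (t : Fin (2 * (L + 1))) : Fin (L + 1) := ⟨(t : ℕ) / 2, by omega⟩

/-- the path of packet `id` with names `x` -/
def pathOf (m : ℕ) (id : Fin n) (x : Fut L K) : List (Node L K n) :=
  List.ofFn fun t : Fin (2 * (L + 1)) => node m (lev t) id (x (lev t)) (decide ((t : ℕ) % 2 = 1))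

lemma length_pathOf (id : Fin n) (x : Fut L K) : (pathOf m id x).length = 2 * (L + 1) := by
  rw [pathOf, List.length_ofFn]

lemma getElem?_pathOf (id : Fin n) (x : Fut L K) (t : ℕ) (v : Node L K n) :
    (pathOf m id x)[t]? = some v ↔ ∃ h : t < 2 * (L + 1),
      v = node m (lev ⟨t, h⟩) id (x (lev ⟨t, h⟩)) (decide (t % 2 = 1)) := by
  rw [pathOf, List.getElem?_ofFn]
  constructor
  · intro h
    split_ifs at h with h1
    exact ⟨h1, (Option.some.inj h).symm⟩
  · rintro ⟨h1, rfl⟩
    rw [dif_pos h1]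

lemma mem_pathOf (id : Fin n) (x : Fut L K) (v : Node L K n) :
    v ∈ pathOf m id x ↔ ∃ l b, v = node m l id (x l) b := by
  rw [List.mem_iff_getElem?]
  constructor
  · rintro ⟨t, ht⟩
    obtain ⟨h, rfl⟩ := (getElem?_pathOf id x t v).1 ht
    exact ⟨_, _, rfl⟩
  · rintro ⟨l, b, rfl⟩
    refine ⟨2 * l + (if b then 1 else 0), (getElem?_pathOf id x _ _).2 ⟨?_, ?_⟩⟩
    · have := l.2
      split_ifs <;> omega
    · have hl : lev (L := L) ⟨2 * (l : ℕ) + (if b then 1 else 0), by
          have := l.2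
          split_ifs <;> omega⟩ = l := by
        unfold lev
        ext
        simp only
        split_ifs <;> omega
      rw [hl]
      congr 1
      cases b <;> simp [Nat.add_mod]

lemma getElem?_even (id : Fin n) (x : Fut L K) (l : Fin (L + 1)) :
    (pathOf m id x)[2 * (l : ℕ)]? = some (node m l id (x l) false) := by
  rw [getElem?_pathOf]
  have hl := l.2
  refine ⟨by omega, ?_⟩
  have : lev (L := L) ⟨2 * (l : ℕ), by omega⟩ = l := by
    unfold lev
    ext
    simp
  rw [this]
  simp

lemma getElem?_odd (id : Fin n) (x : Fut L K) (l : Fin (L + 1)) :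
    (pathOf m id x)[2 * (l : ℕ) + 1]? = some (node m l id (x l) true) := by
  rw [getElem?_pathOf]
  have hl := l.2
  refine ⟨by omega, ?_⟩
  have : lev (L := L) ⟨2 * (l : ℕ) + 1, by omega⟩ = l := by
    unfold lev
    ext
    simp
    omega
  rw [this]
  simp [Nat.add_mod]

/-- the packets of cluster `c` of level `i`, with names `X` -/
def coll (m i c : ℕ) (X : Fin n → Fut L K) : Fin n → List (Node L K n) :=
  fun id => if (id : ℕ) / m ^ (i + 1) = c then pathOf m id (X id) else []

lemma coll_pos {i c : ℕ} {X : Fin n → Fut L K} {id : Fin n} (h : (id : ℕ) / m ^ (i + 1) = c) :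
    coll m i c X id = pathOf m id (X id) := if_pos h

lemma coll_neg {i c : ℕ} {X : Fin n → Fut L K} {id : Fin n} (h : (id : ℕ) / m ^ (i + 1) ≠ c) :
    coll m i c X id = [] := if_neg h

/-- The nodes of levels at most `i` in the part of the network reserved to cluster `c` of level `i`. -/
def terr (m i c : ℕ) : Set (Node L K n) :=
  {v | ∃ (l : Fin (L + 1)) (id : Fin n) (y : Fin K) (b : Bool), (l : ℕ) ≤ i ∧
    (id : ℕ) / m ^ (i + 1) = c ∧ v = node m l id y b}

lemma div_of_clus {i : ℕ} {l : ℕ} (hl : l ≤ i) {id id' : Fin n}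
    (h : clus m l id = clus m l id') : (id : ℕ) / m ^ (i + 1) = (id' : ℕ) / m ^ (i + 1) := by
  have h1 : (id : ℕ) / m ^ (l + 1) = (id' : ℕ) / m ^ (l + 1) := congrArg Fin.val h
  have h2 : m ^ (i + 1) = m ^ (l + 1) * m ^ (i - l) := by
    rw [← pow_add]
    congr 1
    omega
  rw [h2, ← Nat.div_div_eq_div_mul, ← Nat.div_div_eq_div_mul, h1]

/-- A packet whose path visits the territory belongs to the cluster. -/
lemma mem_terr {i c : ℕ} {id : Fin n} {x : Fut L K} {v : Node L K n}
    (hv : v ∈ terr (L := L) (K := K) (n := n) m i c) (h : v ∈ pathOf m id x) :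
    (id : ℕ) / m ^ (i + 1) = c := by
  obtain ⟨l, id', y, b, hl, hid, rfl⟩ := hv
  obtain ⟨l', b', he⟩ := (mem_pathOf id x _).1 h
  unfold node at he
  rw [Prod.mk.injEq, Prod.mk.injEq] at he
  obtain ⟨rfl, he, -⟩ := he
  rw [← hid]
  exact (div_of_clus hl he).symm

/-- The packets of a smaller cluster, as long as they are in its territory, do not notice the
others. -/
lemma late_transfer (A : Protocol (Node L K n) (Fin n)) (i c : ℕ) (P : Fin n → List (Node L K n))
    (X : Fin n → Fut L K)
    (hP : ∀ id : Fin n, (id : ℕ) / m ^ (i + 1) = c → P id = pathOf m id (X id))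
    (hP' : ∀ id : Fin n, P id = [] ∨ ∃ x, P id = pathOf m id x)
    (t : ℕ) (hi : i < L + 1) (p : Fin n) (hp : (p : ℕ) / m ^ (i + 1) = c)
    (h : (run A (coll m i c X) t).pos p ≤ 2 * i) : (run A P t).pos p ≤ 2 * i := by
  refine late_of_local A P (coll m i c X) (terr m i c) ?_ ?_ t (2 * i) p
    (node m ⟨i, hi⟩ p (X p ⟨i, hi⟩) false) ⟨⟨i, hi⟩, p, _, _, le_rfl, hp, rfl⟩ ?_ h
  · intro id v hv hmem
    have hid : (id : ℕ) / m ^ (i + 1) = c := by
      rcases hmem with h' | h'
      · rcases hP' id with h0 | ⟨x, h0⟩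
        · rw [h0] at h'
          simp at h'
        · rw [h0] at h'
          exact mem_terr hv h'
      · by_contra hne
        rw [coll_neg hne] at h'
        simp at h'
    rw [hP id hid, coll_pos hid]
  · intro id a b v hab hb hv
    have hid : (id : ℕ) / m ^ (i + 1) = c := by
      rcases hP' id with h0 | ⟨x, h0⟩
      · rw [h0] at hb
        simp at hb
      · rw [h0] at hb
        exact mem_terr hv (List.mem_of_getElem? hb)
    rw [hP id hid] at hb ⊢
    obtain ⟨hb', hvb⟩ := (getElem?_pathOf id (X id) b v).1 hb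
    refine ⟨node m (lev ⟨a, by omega⟩) id (X id (lev ⟨a, by omega⟩)) (decide (a % 2 = 1)),
      ⟨_, id, _, _, ?_, hid, rfl⟩, (getElem?_pathOf id (X id) a _).2 ⟨by omega, rfl⟩⟩
    obtain ⟨l, id', y, b', hl, hid', hv'⟩ := hv
    rw [hvb] at hv'
    unfold node at hv'
    rw [Prod.mk.injEq] at hv'
    have h1 : ((lev (L := L) ⟨b, hb'⟩ : Fin (L + 1)) : ℕ) = l := congrArg Fin.val hv'.1
    have h2 : ((lev (L := L) ⟨b, hb'⟩ : Fin (L + 1)) : ℕ) = b / 2 := rfl
    have h3 : ((lev (L := L) ⟨a, by omega⟩ : Fin (L + 1)) : ℕ) = a / 2 := rfl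
    rw [h3]
    have : a / 2 ≤ b / 2 := Nat.div_le_div_right hab
    omega
  · rw [hP p hp]
    exact getElem?_even p (X p) ⟨i, hi⟩

/-- the time before which the special packet of level `i` does not leave -/
def tm (m i : ℕ) : ℕ := i * (m + 1) + (m - 1)

structure Conf (A : Protocol (Node L K n) (Fin n)) (m i c : ℕ) (X : Fin n → Fut L K)
    (p : Fin n) : Prop where
  hp : (p : ℕ) / m ^ (i + 1) = c
  zero : ∀ id : Fin n, (id : ℕ) / m ^ (i + 1) = c → ((X id 0 : Fin K) : ℕ) = 0
  low : ∀ l : Fin (L + 1), (l : ℕ) ≤ i → ∀ (c' : ℕ) (y : Fin K),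
    (Finset.univ.filter fun id : Fin n => (id : ℕ) / m ^ (i + 1) = c ∧
      (id : ℕ) / m ^ ((l : ℕ) + 1) = c' ∧ X id l = y).card ≤ m
  high : ∀ l : Fin (L + 1), i < (l : ℕ) → ∀ id id' : Fin n, (id : ℕ) / m ^ (i + 1) = c →
    (id' : ℕ) / m ^ (i + 1) = c → X id l = X id' l → id = id'
  late : (run A (coll m i c X) (tm m i)).pos p ≤ 2 * i

lemma Conf.congr {A : Protocol (Node L K n) (Fin n)} {i c : ℕ} {X X' : Fin n → Fut L K}
    {p : Fin n} (h : Conf A m i c X p) (hX : ∀ id : Fin n, (id : ℕ) / m ^ (i + 1) = c → X id = X' id) :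
    Conf A m i c X' p := by
  have hc : coll m i c X' = coll m i c X := by
    funext id
    by_cases hid : (id : ℕ) / m ^ (i + 1) = c
    · rw [coll_pos hid, coll_pos hid, hX id hid]
    · rw [coll_neg hid, coll_neg hid]
  refine ⟨h.hp, fun id hid => hX id hid ▸ h.zero id hid, fun l hl c' y => ?_,
    fun l hl id id' hid hid' he => ?_, ?_⟩
  · refine le_trans (Finset.card_le_card ?_) (h.low l hl c' y)
    intro id hid
    rw [Finset.mem_filter] at hid ⊢
    refine ⟨hid.1, hid.2.1, hid.2.2.1, ?_⟩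
    rw [hX id hid.2.1]
    exact hid.2.2.2
  · refine h.high l hl id id' hid hid' ?_
    rw [hX id hid, hX id' hid']
    exact he
  · rw [hc]
    exact h.late

/-- `x` can be made the future of a late packet, the other packets avoiding the names in `Z`. -/
def Ach (A : Protocol (Node L K n) (Fin n)) (m i c : ℕ) (x : Fut L K) (Z : Finset (Fin K)) : Prop :=
  ∃ (X : Fin n → Fut L K) (p : Fin n), Conf A m i c X p ∧
    (∀ l : Fin (L + 1), i < (l : ℕ) → X p l = x l) ∧
    ∀ id : Fin n, (id : ℕ) / m ^ (i + 1) = c → id ≠ p → ∀ l : Fin (L + 1), i < (l : ℕ) → X id l ∉ Z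

/-- the number of packets of a cluster -/
lemma card_block_le (M c : ℕ) (hM : 0 < M) :
    (Finset.univ.filter fun id : Fin n => (id : ℕ) / M = c).card ≤ M := by
  have h1 : (Finset.univ.filter fun id : Fin n => (id : ℕ) / M = c).card ≤
      (Finset.Ico (c * M) ((c + 1) * M)).card := by
    refine Finset.card_le_card_of_injOn (fun id : Fin n => (id : ℕ)) ?_ ?_
    · intro id hid
      simp only [Finset.coe_filter, Finset.mem_univ, true_and, Set.mem_ofPred_eq] at hid
      simp only [Finset.coe_Ico, Set.mem_Ico]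
      rw [Nat.div_eq_iff hM] at hid
      constructor
      · omega
      · have : (c + 1) * M = c * M + M := by ring
        omega
    · exact fun a _ b _ h => Fin.ext h
  rw [Nat.card_Ico] at h1
  have : (c + 1) * M = c * M + M := by ring
  omega

/-- the member number `j` of the cluster of level `0` -/
lemma exists_member {c : ℕ} (hc : (c + 1) * m ≤ n) (j : Fin m) :
    ∃ id : Fin n, (id : ℕ) / m = c ∧ (id : ℕ) % m = j := by
  have hj := j.2
  refine ⟨⟨c * m + j, ?_⟩, ?_, ?_⟩
  · have : (c + 1) * m = c * m + m := by ring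
    omega
  · simp only
    rw [Nat.add_comm, Nat.add_mul_div_right _ _ (by omega), Nat.div_eq_of_lt hj, zero_add]
  · simp only
    rw [Nat.add_comm, Nat.add_mul_mod_self_right, Nat.mod_eq_of_lt hj]

end Pool.Agent.W959.OR
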