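import Pool.Agent.W959.OR.Defs

set_option autoImplicit false

namespace Pool.Agent.W959.OR

variable {V ι : Type}

lemma present_unique {P : ι → List V} {pos : ι → ℕ} {i : ι} {v v' : V}
    (h : Present P pos i v) (h' : Present P pos i v') : v = v' :=
  Option.some.inj (Eq.trans (Eq.symm h) h')

lemma pos_le_succ (A : Protocol V ι) (P : ι → List V) (t : ℕ) (i : ι) :
    (run A P t).pos i ≤ (run A P (t + 1)).pos i := by
  simp only [run, step]
  split_ifs <;> omega

lemma succ_pos_le (A : Protocol V ι) (P : ι → List V) (t : ℕ) (i : ι) :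
    (run A P (t + 1)).pos i ≤ (run A P t).pos i + 1 := by
  simp only [run, step]
  split_ifs <;> omega

lemma pos_mono (A : Protocol V ι) (P : ι → List V) {s t : ℕ} (h : s ≤ t) (i : ι) :
    (run A P s).pos i ≤ (run A P t).pos i := by
  induction t, h using Nat.le_induction with
  | base => exact le_rfl
  | succ t _ ih => exact ih.trans (pos_le_succ A P t i)

lemma pos_add_le (A : Protocol V ι) (P : ι → List V) (t s : ℕ) (i : ι) :
    (run A P (t + s)).pos i ≤ (run A P t).pos i + s := by
  induction s with
  | zero => simp
  | succ s ih =>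
    have := succ_pos_le A P (t + s) i
    rw [← add_assoc]
    omega

/-- a packet which moves is forwarded -/
lemma moved {A : Protocol V ι} {P : ι → List V} {t : ℕ} {i : ι}
    (h : (run A P t).pos i < (run A P (t + 1)).pos i) :
    ∃ v w, (P i)[(run A P t).pos i]? = some v ∧ (P i)[(run A P t).pos i + 1]? = some w ∧
      (out A P t (run A P t) v).2.2 w = some i := by
  by_contra hc
  have : (run A P (t + 1)).pos i = (run A P t).pos i := by
    simp only [run, step]
    rw [if_neg]
    rintro ⟨v, w, h1, h2, h3⟩
    exact hc ⟨v, w, h1, h2, h3⟩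
  omega

/-- **Capacity of an edge.** If all packets of `S` have to cross the same edge and none has crossed
it at time `t₀`, then at most `s` of them have crossed it at time `t₀ + s`. -/
lemma capacity (A : Protocol V ι) (P : ι → List V) (S : Finset ι) (a : ℕ) (u w : V)
    (hu : ∀ i ∈ S, (P i)[a]? = some u) (hw : ∀ i ∈ S, (P i)[a + 1]? = some w) (t₀ : ℕ)
    (h0 : ∀ i ∈ S, (run A P t₀).pos i ≤ a) (s : ℕ) :
    (S.filter fun i => a + 1 ≤ (run A P (t₀ + s)).pos i).card ≤ s := by
  classical
  induction s with
  | zero =>
    rw [Nat.le_zero, Finset.card_eq_zero, Finset.filter_eq_empty_iff]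
    intro i hi h
    have := h0 i hi
    simp only [add_zero] at h
    omega
  | succ s ih =>
    have hsub : (S.filter fun i => a + 1 ≤ (run A P (t₀ + (s + 1))).pos i) ⊆
        (S.filter fun i => a + 1 ≤ (run A P (t₀ + s)).pos i) ∪
        (S.filter fun i => (run A P (t₀ + s)).pos i = a ∧
          (run A P (t₀ + s)).pos i < (run A P (t₀ + s + 1)).pos i) := by
      intro i hi
      rw [Finset.mem_filter] at hi
      rw [Finset.mem_union, Finset.mem_filter, Finset.mem_filter]
      have h1 := succ_pos_le A P (t₀ + s) i
      have h2 : a + 1 ≤ (run A P (t₀ + s + 1)).pos i := hi.2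
      by_cases h3 : a + 1 ≤ (run A P (t₀ + s)).pos i
      · exact Or.inl ⟨hi.1, h3⟩
      · exact Or.inr ⟨hi.1, by omega, by omega⟩
    have hone : (S.filter fun i => (run A P (t₀ + s)).pos i = a ∧
          (run A P (t₀ + s)).pos i < (run A P (t₀ + s + 1)).pos i).card ≤ 1 := by
      rw [Finset.card_le_one]
      intro i hi j hj
      rw [Finset.mem_filter] at hi hj
      obtain ⟨v, x, h1, h2, h3⟩ := moved hi.2.2
      obtain ⟨v', x', h1', h2', h3'⟩ := moved hj.2.2
      rw [hi.2.1] at h1 h2
      rw [hj.2.1] at h1' h2'
      rw [hu i hi.1] at h1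
      rw [hw i hi.1] at h2
      rw [hu j hj.1] at h1'
      rw [hw j hj.1] at h2'
      obtain rfl := Option.some.inj h1
      obtain rfl := Option.some.inj h2
      obtain rfl := Option.some.inj h1'
      obtain rfl := Option.some.inj h2'
      exact Option.some.inj (h3.symm.trans h3')
    calc _ ≤ _ := Finset.card_le_card hsub
      _ ≤ _ := Finset.card_union_le _ _
      _ ≤ s + 1 := by omega

/-- **Locality.** Let `U` be a set of nodes such that the two path collections agree on all packets
which visit `U`, and such that every path visits `U` first. Then nothing which happens in `U`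
depends on the other packets. -/
lemma local_run (A : Protocol V ι) (P Q : ι → List V) (U : Set V)
    (h1 : ∀ i v, v ∈ U → (v ∈ P i ∨ v ∈ Q i) → P i = Q i)
    (h2 : ∀ i (a b : ℕ) v, a ≤ b → (P i)[b]? = some v → v ∈ U → ∃ v' ∈ U, (P i)[a]? = some v')
    (t : ℕ) :
    (∀ v ∈ U, (run A P t).mem v = (run A Q t).mem v) ∧
    ∀ i, (∃ v ∈ U, v ∈ P i) →
      ((run A P t).pos i = (run A Q t).pos i ∧ (run A P t).hdr i = (run A Q t).hdr i) ∨
      ((∀ v ∈ U, (P i)[(run A P t).pos i]? ≠ some v) ∧
        (∀ v ∈ U, (P i)[(run A Q t).pos i]? ≠ some v)) := by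
  classical
  induction t with
  | zero =>
    refine ⟨fun v _ => rfl, fun i ⟨v, hv, hi⟩ => Or.inl ⟨rfl, ?_⟩⟩
    simp only [run]
    rw [h1 i v hv (Or.inl hi)]
  | succ t ih =>
    obtain ⟨ihm, ihp⟩ := ih
    -- the views in `U` agree
    have hview : ∀ v ∈ U, view A P (run A P t) v = view A Q (run A Q t) v := by
      intro v hv
      funext i
      unfold view
      by_cases hP : v ∈ P i
      · have hPQ := h1 i v hv (Or.inl hP)
        rcases ihp i ⟨v, hv, hP⟩ with ⟨e1, e2⟩ | ⟨e1, e2⟩
        · have : Present P (run A P t).pos i v ↔ Present Q (run A Q t).pos i v := by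
            unfold Present
            rw [hPQ, e1]
          by_cases hw : Present P (run A P t).pos i v
          · rw [if_pos hw, if_pos (this.1 hw), hPQ, e2]
          · rw [if_neg hw, if_neg (fun h => hw (this.2 h))]
        · rw [if_neg (fun h : Present P _ i v => e1 v hv h), if_neg]
          intro h
          refine e2 v hv ?_
          rw [hPQ]
          exact h
      · have hQ : v ∉ Q i := by
          intro h
          rw [← h1 i v hv (Or.inr h)] at h
          exact hP h
        rw [if_neg (fun h : Present P _ i v => hP (List.mem_of_getElem? h)),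
          if_neg (fun h : Present Q _ i v => hQ (List.mem_of_getElem? h))]
    have hout : ∀ v ∈ U, out A P t (run A P t) v = out A Q t (run A Q t) v := by
      intro v hv
      unfold out
      rw [ihm v hv, hview v hv]
    refine ⟨fun v hv => ?_, fun i hi => ?_⟩
    · show (out A P t (run A P t) v).1 = (out A Q t (run A Q t) v).1
      rw [hout v hv]
    · obtain ⟨v₀, hv₀, hi₀⟩ := hi
      have hPQ := h1 i v₀ hv₀ (Or.inl hi₀)
      -- once outside, always outside
      have hstay : ∀ a b : ℕ, a ≤ b → (∀ v ∈ U, (P i)[a]? ≠ some v) →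
          ∀ v ∈ U, (P i)[b]? ≠ some v := by
        intro a b hab h v hv hb
        obtain ⟨v', hv', h'⟩ := h2 i a b v hab hb hv
        exact h v' hv' h'
      by_cases hin : ∃ v ∈ U, (P i)[(run A P t).pos i]? = some v
      · obtain ⟨v, hv, hpv⟩ := hin
        rcases ihp i ⟨v₀, hv₀, hi₀⟩ with ⟨e1, e2⟩ | ⟨e1, -⟩
        · left
          have hW : ∀ x, Present P (run A P t).pos i x ↔ Present Q (run A Q t).pos i x := by
            intro x
            unfold Present
            rw [hPQ, e1]
          have hx : ∀ x, Present P (run A P t).pos i x → x = v := fun x h =>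
            Option.some.inj (Eq.trans (Eq.symm h) hpv)
          have hiff : (∃ x w, Present P (run A P t).pos i x ∧
              (P i)[(run A P t).pos i + 1]? = some w ∧
              (out A P t (run A P t) x).2.2 w = some i) ↔
            (∃ x w, Present Q (run A Q t).pos i x ∧
              (Q i)[(run A Q t).pos i + 1]? = some w ∧
              (out A Q t (run A Q t) x).2.2 w = some i) := by
            constructor
            · rintro ⟨x, w, a1, a2, a3⟩
              obtain rfl := hx x a1
              refine ⟨x, w, (hW x).1 a1, ?_, ?_⟩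
              · rw [← hPQ, ← e1]
                exact a2
              · rw [← hout x hv]
                exact a3
            · rintro ⟨x, w, a1, a2, a3⟩
              have a1' := (hW x).2 a1
              obtain rfl := hx x a1'
              refine ⟨x, w, a1', ?_, ?_⟩
              · rw [hPQ, e1]
                exact a2
              · rw [hout x hv]
                exact a3
          constructor
          · simp only [run, step]
            by_cases hc : (∃ x w, Present P (run A P t).pos i x ∧
              (P i)[(run A P t).pos i + 1]? = some w ∧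
              (out A P t (run A P t) x).2.2 w = some i)
            · rw [if_pos hc, if_pos (hiff.1 hc), e1]
            · rw [if_neg hc, if_neg (fun h => hc (hiff.2 h)), e1]
          · simp only [run, step]
            by_cases hc : ∃ x, Present P (run A P t).pos i x
            · have hc' : ∃ x, Present Q (run A Q t).pos i x := by
                obtain ⟨x, hx'⟩ := hc
                exact ⟨x, (hW x).1 hx'⟩
              rw [dif_pos hc, dif_pos hc']
              have c1 : hc.choose = v := hx _ hc.choose_spec
              have c2 : hc'.choose = v := hx _ ((hW _).2 hc'.choose_spec)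
              rw [c1, c2, hout v hv]
            · have hc' : ¬ ∃ x, Present Q (run A Q t).pos i x := by
                rintro ⟨x, hx'⟩
                exact hc ⟨x, (hW x).2 hx'⟩
              rw [dif_neg hc, dif_neg hc', e2]
        · exact absurd hpv (e1 v hv)
      · right
        have hP' : ∀ v ∈ U, (P i)[(run A P t).pos i]? ≠ some v := fun v hv h => hin ⟨v, hv, h⟩
        have hQ' : ∀ v ∈ U, (P i)[(run A Q t).pos i]? ≠ some v := by
          rcases ihp i ⟨v₀, hv₀, hi₀⟩ with ⟨e1, -⟩ | ⟨-, e2⟩
          · rw [← e1]
            exact hP'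
          · exact e2
        exact ⟨hstay _ _ (pos_le_succ A P t i) hP', hstay _ _ (pos_le_succ A Q t i) hQ'⟩

/-- A packet which is late in the run of the sub-collection is late. -/
lemma late_of_local (A : Protocol V ι) (P Q : ι → List V) (U : Set V)
    (h1 : ∀ i v, v ∈ U → (v ∈ P i ∨ v ∈ Q i) → P i = Q i)
    (h2 : ∀ i (a b : ℕ) v, a ≤ b → (P i)[b]? = some v → v ∈ U → ∃ v' ∈ U, (P i)[a]? = some v')
    (t a : ℕ) (i : ι) (v : V) (hv : v ∈ U) (hva : (P i)[a]? = some v)
    (hQ : (run A Q t).pos i ≤ a) : (run A P t).pos i ≤ a := by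
  have hmem : v ∈ P i := List.mem_of_getElem? hva
  rcases (local_run A P Q U h1 h2 t).2 i ⟨v, hv, hmem⟩ with ⟨e, -⟩ | ⟨-, e⟩
  · omega
  · obtain ⟨v', hv', h'⟩ := h2 i _ a v hQ hva hv
    exact absurd h' (e v' hv')

end Pool.Agent.W959.OR
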