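import Mathlib

/-!
# Online packet routing along prescribed paths

The synchronous multi-port store and forward model: every edge forwards at most one packet per
step, and a node may send packets along all its outgoing edges at once.
-/

set_option autoImplicit false

namespace Pool.Agent.W959.OR

/-- A deterministic online (local) protocol for packets with names in `ι` on the nodes `V`. Every node
has a memory, every packet a header. In step `t` the node `v` sees its memory and, for every packet
present at `v`, the name, the whole path and the header of the packet; it computes its new memory, the
new headers of the packets present, and for every node `w` the packet, if any, which is to be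
forwarded on the edge `(v, w)`. -/
structure Protocol (V ι : Type) where
  Mem : Type
  Hdr : Type
  mem₀ : V → Mem
  hdr₀ : ι → List V → Hdr
  act : ℕ → V → Mem → (ι → Option (List V × Hdr)) → Mem × (ι → Hdr) × (V → Option ι)

variable {V ι : Type}

/-- The state of the network: packet `i` is at the node with index `pos i` of its path. -/
structure State (A : Protocol V ι) where
  pos : ι → ℕ
  hdr : ι → A.Hdr
  mem : V → A.Mem

/-- Packet `i` is present at the node `v`. -/
def Present (P : ι → List V) (pos : ι → ℕ) (i : ι) (v : V) : Prop :=
  (P i)[pos i]? = some v

open Classical in
/-- what the node `v` sees -/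
noncomputable def view (A : Protocol V ι) (P : ι → List V) (s : State A) (v : V) :
    ι → Option (List V × A.Hdr) :=
  fun i => if Present P s.pos i v then some (P i, s.hdr i) else none

/-- what the node `v` computes in step `t` -/
noncomputable def out (A : Protocol V ι) (P : ι → List V) (t : ℕ) (s : State A) (v : V) :
    A.Mem × (ι → A.Hdr) × (V → Option ι) :=
  A.act t v (s.mem v) (view A P s v)

open Classical in
/-- One step: packet `i`, present at `v`, moves to the next node `w` of its path if `v` forwards it
on the edge `(v, w)`. -/
noncomputable def step (A : Protocol V ι) (P : ι → List V) (t : ℕ) (s : State A) : State A where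
  pos i := if ∃ v w, Present P s.pos i v ∧ (P i)[s.pos i + 1]? = some w ∧
    (out A P t s v).2.2 w = some i then s.pos i + 1 else s.pos i
  hdr i := if h : ∃ v, Present P s.pos i v then (out A P t s h.choose).2.1 i else s.hdr i
  mem v := (out A P t s v).1

/-- the state after `t` steps -/
noncomputable def run (A : Protocol V ι) (P : ι → List V) : ℕ → State A
  | 0 => ⟨fun _ => 0, fun i => A.hdr₀ i (P i), A.mem₀⟩
  | t + 1 => step A P t (run A P t)

/-- all packets have been delivered within `T` steps -/
def Done (A : Protocol V ι) (P : ι → List V) (T : ℕ) : Prop :=
  ∀ i, (P i).length ≤ (run A P T).pos i + 1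

/-- A randomised online protocol for `n` packets: a deterministic one for each outcome `ω` of the
random choices. -/
structure RandomProtocol (V : Type) (n : ℕ) where
  Ω : Type
  [mΩ : MeasurableSpace Ω]
  μ : MeasureTheory.Measure Ω
  [isProb : MeasureTheory.IsProbabilityMeasure μ]
  prot : Ω → Protocol V (Fin n)
  meas : ∀ (P : Fin n → List V) (T : ℕ), MeasurableSet {ω | Done (prot ω) P T}

/-- a simple path of the network with edges `E` -/
def SimplePath (E : V → V → Prop) (l : List V) : Prop :=
  l ≠ [] ∧ l.IsChain E ∧ l.Nodup

/-- The congestion: the largest number of paths which use one edge. -/
noncomputable def congestion {n : ℕ} [Fintype V] (P : Fin n → List V) : ℕ :=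
  Finset.univ.sup fun e : V × V => {i : Fin n | e ∈ (P i).zip (P i).tail}.ncard

/-- The dilation: the largest number of edges of a path. -/
def dilation {n : ℕ} (P : Fin n → List V) : ℕ :=
  Finset.univ.sup fun i => (P i).length - 1

end Pool.Agent.W959.OR
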