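import Pool.Agent.W959.OR.Glue

set_option autoImplicit false

namespace Pool.Agent.W959.OR

open MeasureTheory

variable {m L K n : ℕ}

lemma done_mono {V ι : Type} (A : Protocol V ι) (P : ι → List V) {s t : ℕ} (h : s ≤ t)
    (hd : Done A P s) : Done A P t := fun i => (hd i).trans (by
  have := pos_mono A P h i
  omega)

/-- averaging -/
lemma exists_small {Ω β : Type} [MeasurableSpace Ω] (μ : Measure Ω) [IsProbabilityMeasure μ]
    [Fintype β] [Nonempty β] (D : β → Set Ω) (hD : ∀ b, MeasurableSet (D b)) (M : ℕ)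
    (h : ∀ ω, {b | ω ∈ D b}.ncard ≤ M) :
    ∃ b, μ (D b) ≤ ENNReal.ofReal ((M : ℝ) / (Fintype.card β : ℝ)) := by
  classical
  by_contra hcon
  push Not at hcon
  have h1 : ∑ b : β, μ (D b) = ∫⁻ ω, ∑ b : β, (D b).indicator 1 ω ∂μ := by
    rw [lintegral_finsetSum _ (fun b _ => measurable_one.indicator (hD b))]
    refine Finset.sum_congr rfl fun b _ => ?_
    rw [lintegral_indicator_one (hD b)]
  have h2 : ∑ b : β, μ (D b) ≤ M := by
    rw [h1]
    calc ∫⁻ ω, ∑ b : β, (D b).indicator 1 ω ∂μ ≤ ∫⁻ _ω, (M : ENNReal) ∂μ := by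
          refine lintegral_mono fun ω => ?_
          have h3 : ∑ b : β, (D b).indicator (1 : Ω → ENNReal) ω =
              ((Finset.univ.filter fun b => ω ∈ D b).card : ENNReal) := by
            rw [← Finset.sum_boole]
            refine Finset.sum_congr rfl fun b _ => ?_
            by_cases hb : ω ∈ D b
            · simp [hb]
            · simp [hb]
          rw [h3]
          have h4 : (Finset.univ.filter fun b => ω ∈ D b).card = {b | ω ∈ D b}.ncard := by
            rw [← Set.ncard_coe_finset]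
            congr 1
            ext b
            simp
          rw [h4]
          exact Nat.cast_le.2 (h ω)
      _ = M := by simp
  have h5 : ∑ _b : β, ENNReal.ofReal ((M : ℝ) / (Fintype.card β : ℝ)) < ∑ b : β, μ (D b) :=
    ENNReal.sum_lt_sum_of_nonempty Finset.univ_nonempty (fun b _ => hcon b)
  rw [Finset.sum_const, Finset.card_univ, nsmul_eq_mul] at h5
  have hc : (0 : ℝ) < Fintype.card β := by exact_mod_cast Fintype.card_pos
  have h6 : (Fintype.card β : ENNReal) * ENNReal.ofReal ((M : ℝ) / (Fintype.card β : ℝ)) = M := by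
    rw [← ENNReal.ofReal_natCast (Fintype.card β), ← ENNReal.ofReal_mul hc.le,
      mul_div_cancel₀ _ hc.ne', ENNReal.ofReal_natCast]
  rw [h6] at h5
  exact absurd h2 (not_le.2 h5)

/-- **The lower bound.** -/
theorem lower_bound (m L n : ℕ) (hm : 0 < m) (hn : m ^ (L + 1) ≤ n) :
    ∃ (V : Type) (_ : Fintype V) (E : V → V → Prop), ∀ R : RandomProtocol V n,
      ∃ P : Fin n → List V, (∀ i, SimplePath E (P i)) ∧ congestion P = m ∧
        dilation P = 2 * L + 1 ∧
        R.μ {ω | Done (R.prot ω) P (L * (m + 1) + (m - 1))} ≤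
          ENNReal.ofReal (Real.exp (-(((n / m ^ (L + 1) : ℕ) : ℝ) /
            ((4 * (L + 1) * m ^ (L + 1) : ℕ) : ℝ) ^ ((3 * L + 2) * (L + 1) * m ^ (L + 1))))) := by
  classical
  have hh := claim_all (L := L) hm L le_rfl
  have h4 := bb_ge (L := L) hm
  have hN : 0 < m ^ (L + 1) := pow_pos hm _
  have hNb : 4 * m ^ (L + 1) ≤ bb m L := by
    unfold bb
    exact Nat.mul_le_mul_right _ (by omega)
  have hb1 : 1 ≤ bb m L := by omega
  set K : ℕ := bb m L ^ (2 * L + 1 + L) + 1 + m ^ (L + 1) with hKdef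
  have hhK : bb m L ^ (2 * L + 1 + L) < K := by omega
  have hK : m ^ (L + 1) ≤ K := by omega
  have hKle : K ≤ bb m L ^ (3 * L + 2) := by
    have h1 : bb m L ^ (3 * L + 2) = bb m L ^ (2 * L + 1 + L) * bb m L := by
      rw [← pow_succ]
      congr 1
      ring
    have h2 : bb m L ≤ bb m L ^ (2 * L + 1 + L) := Nat.le_self_pow (by omega) _
    have h3 : bb m L ^ (2 * L + 1 + L) * 4 ≤ bb m L ^ (2 * L + 1 + L) * bb m L :=
      Nat.mul_le_mul_left _ (by omega)
    omega
  -- the legal assignments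
  have hfin : Fintype {Y : Fin (m ^ (L + 1)) → Fut L K // Legal m L K Y} := inferInstance
  set M : ℕ := Fintype.card {Y : Fin (m ^ (L + 1)) → Fut L K // Legal m L K Y} with hM
  have hMpos : 0 < M := by
    rw [hM, Fintype.card_pos_iff]
    refine ⟨⟨fun r l => if (l : ℕ) = 0 then ⟨0, by omega⟩ else ⟨r, r.2.trans_le hK⟩,
      fun r => by simp, fun l c' y => ?_⟩⟩
    by_cases hl : (l : ℕ) = 0
    · refine le_trans (Finset.card_le_card ?_) (card_block_le m c' hm)
      intro r hr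
      rw [Finset.mem_filter] at hr ⊢
      refine ⟨hr.1, ?_⟩
      have h1 := hr.2.1
      rw [hl, zero_add, pow_one] at h1
      exact h1
    · refine le_trans (Finset.card_le_one.2 ?_) hm
      intro r hr r' hr'
      rw [Finset.mem_filter] at hr hr'
      have h3 := hr.2.2.trans hr'.2.2.symm
      simp only at h3
      rw [if_neg hl, if_neg hl] at h3
      have h5 := congrArg Fin.val h3
      exact Fin.ext h5
  have hMle : M ≤ bb m L ^ ((3 * L + 2) * (L + 1) * m ^ (L + 1)) := by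
    calc M ≤ Fintype.card (Fin (m ^ (L + 1)) → Fut L K) :=
          Fintype.card_subtype_le _
      _ = (K ^ (L + 1)) ^ (m ^ (L + 1)) := by simp
      _ ≤ ((bb m L ^ (3 * L + 2)) ^ (L + 1)) ^ (m ^ (L + 1)) := by
          gcongr
      _ = bb m L ^ ((3 * L + 2) * (L + 1) * m ^ (L + 1)) := by
          rw [← pow_mul, ← pow_mul, ← mul_assoc]
  have hMpos' : (0 : ℝ) < M := by exact_mod_cast hMpos
  refine ⟨Node L K n, inferInstance, Edge m, fun R => ?_⟩
  have hC : ∀ (A : Protocol (Node L K n) (Fin n)) (c : ℕ), (c + 1) * m ^ (L + 1) ≤ n →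
      ∃ (X : Fin n → Fut L K) (p : Fin n), Conf A m L c X p := by
    intro A c hc
    obtain ⟨H, -, hH⟩ := hh K n hhK A c hc
    obtain ⟨X, p, hX, -⟩ := hH (fun _ => ⟨0, by omega⟩) (fun l hl => by
      have := l.2
      omega) ∅ (by simp)
    exact ⟨X, p, hX⟩
  let _ := R.mΩ
  have _ := R.isProb
  have hne : Nonempty {Y : Fin (m ^ (L + 1)) → Fut L K // Legal m L K Y} := by
    rw [← Fintype.card_pos_iff]
    exact hMpos
  obtain ⟨Φ, hΦ⟩ := exists_small R.μ (β := Fin (n / m ^ (L + 1)) →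
      {Y : Fin (m ^ (L + 1)) → Fut L K // Legal m L K Y})
    (fun Φ => {ω | Done (R.prot ω) (paths hm hK (fun c => (Φ c).1)) (tm m L)})
    (fun Φ => R.meas _ _) ((M - 1) ^ (n / m ^ (L + 1))) (by
      intro ω
      choose Y hY1 hY2 using exists_bad hm hK hC (R.prot ω)
      have hsub : {Φ : Fin (n / m ^ (L + 1)) →
          {Y : Fin (m ^ (L + 1)) → Fut L K // Legal m L K Y} |
          ω ∈ {ω | Done (R.prot ω) (paths hm hK (fun c => (Φ c).1)) (tm m L)}} ⊆
          (Fintype.piFinset (fun c => Finset.univ.erase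
            (⟨Y c, hY1 c⟩ : {Y : Fin (m ^ (L + 1)) → Fut L K // Legal m L K Y})) :
            Finset (Fin (n / m ^ (L + 1)) →
              {Y : Fin (m ^ (L + 1)) → Fut L K // Legal m L K Y})) := by
        intro Φ hΦ
        rw [Finset.mem_coe, Fintype.mem_piFinset]
        intro c
        rw [Finset.mem_erase]
        refine ⟨fun he => ?_, Finset.mem_univ _⟩
        exact hY2 c (fun c => (Φ c).1) (congrArg Subtype.val he) hΦ
      refine (Set.ncard_le_ncard hsub (Set.toFinite _)).trans ?_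
      rw [Set.ncard_coe_finset, Fintype.card_piFinset]
      simp only [Finset.card_erase_of_mem (Finset.mem_univ _), Finset.card_univ, Finset.prod_const,
        Fintype.card_fin]
      exact le_of_eq rfl)
  refine ⟨paths hm hK (fun c => (Φ c).1), fun i => simplePath_pathOf i _,
    le_antisymm (congestion_paths hm hK _ (fun c => (Φ c).2))
      (congestion_paths_ge hm hK _ (fun c => (Φ c).2) hn),
    dilation_paths hm hK _ (by omega), ?_⟩
  refine hΦ.trans (ENNReal.ofReal_le_ofReal ?_)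
  rw [Fintype.card_fun, Fintype.card_fin, ← hM, Nat.cast_pow, Nat.cast_pow, ← div_pow]
  have h5 : (((M - 1 : ℕ) : ℝ) / M) ≤ Real.exp (-(1 / (M : ℝ))) := by
    rw [Nat.cast_sub hMpos, Nat.cast_one, sub_div, div_self hMpos'.ne']
    have := Real.add_one_le_exp (-(1 / (M : ℝ)))
    linarith
  calc (((M - 1 : ℕ) : ℝ) / M) ^ (n / m ^ (L + 1))
      ≤ (Real.exp (-(1 / (M : ℝ)))) ^ (n / m ^ (L + 1)) := by gcongr
    _ = Real.exp (-(((n / m ^ (L + 1) : ℕ) : ℝ) / M)) := by
        rw [← Real.exp_nat_mul]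
        congr 1
        ring
    _ ≤ _ := by
        refine Real.exp_le_exp.2 (neg_le_neg ?_)
        refine div_le_div_of_nonneg_left (Nat.cast_nonneg _) hMpos' ?_
        exact_mod_cast hMle

/-- the arithmetic of the growing case -/
lemma growth (L n m : ℕ) (hm : 0 < m) (y : ℝ) (hy : y ^ (2 * L + 3) = Real.log n)
    (hmy : (m : ℝ) ≤ y) (hlarge : 8 * (4 * (3 * L + 2) * (L + 1) ^ 2 : ℕ) ≤ y) (hn : 16 ≤ n) :
    m ^ (L + 1) ≤ n ∧ Real.sqrt n ≤ (((n / m ^ (L + 1) : ℕ) : ℝ) /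
            ((4 * (L + 1) * m ^ (L + 1) : ℕ) : ℝ) ^ ((3 * L + 2) * (L + 1) * m ^ (L + 1))) := by
  set W : ℕ := (4 * (L + 1) * m ^ (L + 1)) ^ ((3 * L + 2) * (L + 1) * m ^ (L + 1)) with hW
  have hN : 0 < m ^ (L + 1) := pow_pos hm _
  have hn0 : (0 : ℝ) < n := by
    have : 0 < n := by omega
    exact_mod_cast this
  have hb : 0 < 4 * (L + 1) * m ^ (L + 1) := by positivity
  have hWpos : 0 < W := pow_pos hb _
  have hWpos' : (0 : ℝ) < W := by exact_mod_cast hWpos
  -- `W` is at most the eighth root of `n`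
  have hlog : Real.log W ≤ Real.log n / 8 := by
    have h1 : Real.log W = (((3 * L + 2) * (L + 1) * m ^ (L + 1) : ℕ) : ℝ) *
        Real.log ((4 * (L + 1) * m ^ (L + 1) : ℕ) : ℝ) := by
      rw [hW, Nat.cast_pow, Real.log_pow]
    have h2 : Real.log ((4 * (L + 1) * m ^ (L + 1) : ℕ) : ℝ) ≤
        ((4 * (L + 1) * m ^ (L + 1) : ℕ) : ℝ) := by
      have := Real.log_le_sub_one_of_pos (x := ((4 * (L + 1) * m ^ (L + 1) : ℕ) : ℝ))
        (by exact_mod_cast hb)
      linarith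
    have h3 : Real.log W ≤ ((4 * (3 * L + 2) * (L + 1) ^ 2 : ℕ) : ℝ) * (m : ℝ) ^ (2 * L + 2) := by
      rw [h1]
      calc (((3 * L + 2) * (L + 1) * m ^ (L + 1) : ℕ) : ℝ) *
            Real.log ((4 * (L + 1) * m ^ (L + 1) : ℕ) : ℝ)
          ≤ (((3 * L + 2) * (L + 1) * m ^ (L + 1) : ℕ) : ℝ) *
            ((4 * (L + 1) * m ^ (L + 1) : ℕ) : ℝ) :=
            mul_le_mul_of_nonneg_left h2 (Nat.cast_nonneg _)
        _ = _ := by
            push_cast
            ring
    have hm0 : (0 : ℝ) ≤ m := Nat.cast_nonneg _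
    have h4 : (m : ℝ) ^ (2 * L + 2) ≤ y ^ (2 * L + 2) := pow_le_pow_left₀ hm0 hmy _
    have h5 : (0 : ℝ) ≤ y ^ (2 * L + 2) := pow_nonneg (hm0.trans hmy) _
    have h6 : ((4 * (3 * L + 2) * (L + 1) ^ 2 : ℕ) : ℝ) * (m : ℝ) ^ (2 * L + 2) ≤
        ((4 * (3 * L + 2) * (L + 1) ^ 2 : ℕ) : ℝ) * y ^ (2 * L + 2) :=
      mul_le_mul_of_nonneg_left h4 (Nat.cast_nonneg _)
    have h7 : 8 * (((4 * (3 * L + 2) * (L + 1) ^ 2 : ℕ) : ℝ) * y ^ (2 * L + 2)) ≤
        y * y ^ (2 * L + 2) := by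
      rw [← mul_assoc]
      exact mul_le_mul_of_nonneg_right hlarge h5
    have h8 : y * y ^ (2 * L + 2) = Real.log n := by
      rw [← hy]
      ring
    rw [h8] at h7
    linarith
  have hW8 : (W : ℝ) ≤ Real.exp (Real.log n / 8) := by
    rw [← Real.log_le_iff_le_exp hWpos']
    exact hlog
  have hNW : m ^ (L + 1) ≤ W := by
    calc m ^ (L + 1) ≤ 4 * (L + 1) * m ^ (L + 1) := Nat.le_mul_of_pos_left _ (by omega)
      _ ≤ W := Nat.le_self_pow (by positivity) _
  have hexp : Real.exp (Real.log n / 8) ^ 8 = n := by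
    rw [← Real.exp_nat_mul]
    have : ((8 : ℕ) : ℝ) * (Real.log n / 8) = Real.log n := by
      push_cast
      ring
    rw [this, Real.exp_log hn0]
  set x : ℝ := Real.exp (Real.log n / 8) with hx
  have hx1 : 1 ≤ x := by
    rw [hx]
    refine Real.one_le_exp ?_
    have : (1 : ℝ) ≤ n := by
      have : 1 ≤ n := by omega
      exact_mod_cast this
    have := Real.log_nonneg this
    linarith
  have hx4 : 2 ≤ x ^ 2 := by
    by_contra hlt
    push Not at hlt
    have h1 : (x ^ 2) ^ 4 < 2 ^ 4 := pow_lt_pow_left₀ hlt (by positivity) (by norm_num)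
    have h2 : (x ^ 2) ^ 4 = n := by
      rw [← pow_mul]
      exact hexp
    rw [h2] at h1
    have h3 : (16 : ℝ) ≤ n := by exact_mod_cast hn
    norm_num at h1
    linarith
  have hNn : m ^ (L + 1) ≤ n := by
    have h1 : (W : ℝ) ≤ n := by
      calc (W : ℝ) ≤ x := hW8
        _ ≤ x ^ 8 := le_self_pow₀ hx1 (by norm_num)
        _ = n := hexp
    have h2 : W ≤ n := by exact_mod_cast h1
    omega
  refine ⟨hNn, ?_⟩
  have hsqrt : Real.sqrt n = x ^ 4 := by
    rw [← hexp, show x ^ 8 = (x ^ 4) ^ 2 by ring]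
    exact Real.sqrt_sq (by positivity)
  have hden : (((4 * (L + 1) * m ^ (L + 1) : ℕ) : ℝ) ^ ((3 * L + 2) * (L + 1) * m ^ (L + 1))) =
      (W : ℝ) := by
    rw [hW, Nat.cast_pow]
  rw [hden, le_div_iff₀ hWpos', hsqrt]
  -- `x ^ 4 * W ≤ n / N`
  have h1 : (n : ℝ) < ((n / m ^ (L + 1) : ℕ) + 1) * ((m ^ (L + 1) : ℕ) : ℝ) := by
    have := Nat.lt_div_mul_add (a := n) hN
    have h2 : n < (n / m ^ (L + 1) + 1) * m ^ (L + 1) := by
      rw [add_mul, one_mul]
      exact this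
    exact_mod_cast h2
  have hNx : ((m ^ (L + 1) : ℕ) : ℝ) ≤ x := by
    have h2 : ((m ^ (L + 1) : ℕ) : ℝ) ≤ W := by exact_mod_cast hNW
    exact h2.trans hW8
  have h2 : (n : ℝ) < ((n / m ^ (L + 1) : ℕ) + 1) * x :=
    h1.trans_le (mul_le_mul_of_nonneg_left hNx (by positivity))
  have h3 : x ^ 7 < ((n / m ^ (L + 1) : ℕ) : ℝ) + 1 := by
    have h4 : x ^ 7 * x < (((n / m ^ (L + 1) : ℕ) : ℝ) + 1) * x := by
      rw [← pow_succ, hexp]
      exact h2
    exact lt_of_mul_lt_mul_right h4 (by linarith)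
  have h4 : x ^ 4 * W ≤ x ^ 5 := by
    calc x ^ 4 * W ≤ x ^ 4 * x := mul_le_mul_of_nonneg_left hW8 (by positivity)
      _ = x ^ 5 := by ring
  have h5 : 2 * x ^ 5 ≤ x ^ 7 := by
    calc 2 * x ^ 5 ≤ x ^ 2 * x ^ 5 := mul_le_mul_of_nonneg_right hx4 (by positivity)
      _ = x ^ 7 := by ring
  have h6 : 1 ≤ x ^ 5 := one_le_pow₀ hx1
  linarith

/-- **The growing case.** -/
theorem growing (c : ℕ) : ∃ γ : ℝ, 0 < γ ∧ ∃ n₀ : ℕ, ∀ n ≥ n₀, ∀ m : ℕ, 3 * c + 1 ≤ m →
    (m : ℝ) ≤ Real.log n ^ γ →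
    ∃ (V : Type) (_ : Fintype V) (E : V → V → Prop), ∀ R : RandomProtocol V n,
      ∃ P : Fin n → List V, (∀ i, SimplePath E (P i)) ∧ congestion P = m ∧
        dilation P = 6 * c + 3 ∧
        R.μ {ω | Done (R.prot ω) P (c * (congestion P + dilation P))} ≤
          ENNReal.ofReal (Real.exp (-Real.sqrt n)) := by
  set L : ℕ := 3 * c + 1 with hL
  have hγ : (0 : ℝ) < 1 / ((2 * L + 3 : ℕ) : ℝ) := by positivity
  refine ⟨1 / ((2 * L + 3 : ℕ) : ℝ), hγ, ?_⟩
  have htend : Filter.Tendsto (fun n : ℕ => Real.log n ^ (1 / ((2 * L + 3 : ℕ) : ℝ)))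
      Filter.atTop Filter.atTop :=
    (tendsto_rpow_atTop hγ).comp (Real.tendsto_log_atTop.comp tendsto_natCast_atTop_atTop)
  obtain ⟨n₁, hn₁⟩ := Filter.eventually_atTop.1
    (htend.eventually_ge_atTop (8 * ((4 * (3 * L + 2) * (L + 1) ^ 2 : ℕ) : ℝ)))
  refine ⟨max n₁ 16, fun n hn m hcm hmy => ?_⟩
  have hn16 : 16 ≤ n := (le_max_right _ _).trans hn
  have hlog : 0 ≤ Real.log n := Real.log_natCast_nonneg n
  have hy : (Real.log n ^ (1 / ((2 * L + 3 : ℕ) : ℝ))) ^ (2 * L + 3) = Real.log n := by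
    rw [← Real.rpow_natCast, ← Real.rpow_mul hlog, one_div, inv_mul_cancel₀ (by positivity),
      Real.rpow_one]
  obtain ⟨hNn, hsq⟩ := growth L n m (by omega) _ hy hmy
    (hn₁ n ((le_max_left _ _).trans hn)) hn16
  obtain ⟨V, hV, E, hE⟩ := lower_bound m L n (by omega) hNn
  refine ⟨V, hV, E, fun R => ?_⟩
  obtain ⟨P, hP, hC, hD, hμ⟩ := hE R
  refine ⟨P, hP, hC, by omega, ?_⟩
  let _ := R.mΩ
  refine (MeasureTheory.measure_mono ?_).trans (hμ.trans ?_)
  · intro ω hω
    refine done_mono _ _ ?_ hω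
    rw [hC, hD]
    have h1 : c * (m + (2 * L + 1)) = c * m + c * (6 * c + 3) := by
      rw [hL]
      ring
    have h2 : L * (m + 1) = 3 * (c * m) + m + 3 * c + 1 := by
      rw [hL]
      ring
    have h3 : c * (3 * c + 1) ≤ c * m := Nat.mul_le_mul_left _ hcm
    have h4 : c * (3 * c + 1) = 3 * (c * c) + c := by ring
    have h5 : c * (6 * c + 3) = 6 * (c * c) + 3 * c := by ring
    rw [h1, h2]
    omega
  · refine ENNReal.ofReal_le_ofReal (Real.exp_le_exp.2 (neg_le_neg hsq))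

/-- **The negated form of the problem.** -/
theorem negative (ε α : ℝ) (hε : 0 < ε) (hα : 0 < α) (c : ℕ) : ∃ n₀ : ℕ, ∀ n ≥ n₀,
    ∃ (V : Type) (_ : Fintype V) (E : V → V → Prop), ∀ R : RandomProtocol V n,
      ∃ P : Fin n → List V, (∀ i, SimplePath E (P i)) ∧
        (max (congestion P) (dilation P) : ℕ) < Real.log n ^ (1 + ε) ∧
        ENNReal.ofReal ((n : ℝ) ^ (-α)) <
          R.μ {ω | ¬ Done (R.prot ω) P (c * (congestion P + dilation P))} := by
  obtain ⟨γ, hγ, n₀, h⟩ := growing c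
  have ht1 : Filter.Tendsto (fun n : ℕ => Real.log n ^ γ) Filter.atTop Filter.atTop :=
    (tendsto_rpow_atTop hγ).comp (Real.tendsto_log_atTop.comp tendsto_natCast_atTop_atTop)
  have ht2 : Filter.Tendsto (fun n : ℕ => Real.log n ^ (1 + ε)) Filter.atTop Filter.atTop :=
    (tendsto_rpow_atTop (by linarith)).comp
      (Real.tendsto_log_atTop.comp tendsto_natCast_atTop_atTop)
  have ht3 : Filter.Tendsto (fun n : ℕ => (n : ℝ) ^ (-α)) Filter.atTop (nhds 0) :=
    (tendsto_rpow_neg_atTop hα).comp tendsto_natCast_atTop_atTop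
  obtain ⟨n₁, hn₁⟩ := Filter.eventually_atTop.1
    ((ht1.eventually_ge_atTop ((3 * c + 1 : ℕ) : ℝ)).and
      ((ht2.eventually_gt_atTop ((6 * c + 3 : ℕ) : ℝ)).and
        (ht3.eventually_lt_const (show (0 : ℝ) < 1 / 2 by norm_num))))
  refine ⟨max n₀ (max n₁ 1), fun n hn => ?_⟩
  have hn1 : 1 ≤ n := (le_max_right _ _).trans ((le_max_right _ _).trans hn)
  obtain ⟨e1, e2, e3⟩ := hn₁ n ((le_max_left _ _).trans ((le_max_right _ _).trans hn))
  obtain ⟨V, hV, E, hE⟩ := h n ((le_max_left _ _).trans hn) (3 * c + 1) le_rfl e1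
  refine ⟨V, hV, E, fun R => ?_⟩
  obtain ⟨P, hP, hC, hD, hμ⟩ := hE R
  refine ⟨P, hP, ?_, ?_⟩
  · rw [hC, hD, max_eq_right (by omega)]
    exact e2
  · let _ := R.mΩ
    have _ := R.isProb
    have h1 : {ω | ¬ Done (R.prot ω) P (c * (congestion P + dilation P))} =
        {ω | Done (R.prot ω) P (c * (congestion P + dilation P))}ᶜ := rfl
    rw [h1, MeasureTheory.prob_compl_eq_one_sub (R.meas _ _)]
    have h2 : Real.exp (-Real.sqrt n) < 1 / 2 := by
      have h3 : (1 : ℝ) ≤ Real.sqrt n := by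
        rw [Real.one_le_sqrt]
        exact_mod_cast hn1
      have h4 : Real.exp (-Real.sqrt n) ≤ Real.exp (-1) := Real.exp_le_exp.2 (by linarith)
      have h5 : Real.exp (-1) < 1 / 2 := by
        rw [Real.exp_neg, ← one_div]
        refine one_div_lt_one_div_of_lt (by norm_num) ?_
        have := Real.add_one_lt_exp (show (1 : ℝ) ≠ 0 by norm_num)
        linarith
      linarith
    calc ENNReal.ofReal ((n : ℝ) ^ (-α)) < ENNReal.ofReal (1 / 2) :=
          (ENNReal.ofReal_lt_ofReal_iff (by norm_num)).2 e3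
      _ = 1 - ENNReal.ofReal (1 / 2) := by
          rw [← ENNReal.ofReal_one, ← ENNReal.ofReal_sub _ (by norm_num)]
          norm_num
      _ ≤ 1 - R.μ {ω | Done (R.prot ω) P (c * (congestion P + dilation P))} := by
          refine tsub_le_tsub_left (hμ.trans (ENNReal.ofReal_le_ofReal h2.le)) _

end Pool.Agent.W959.OR
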