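import Pool.Agent.W959.OR.Step

set_option autoImplicit false

namespace Pool.Agent.W959.OR

variable {m L K n : ℕ}

/-- The edges of the network: inside a level from a node of side `false` to the node of side `true`
with the same cluster and the same name, and from the nodes of side `true` to all nodes of side
`false` of the next level in the cluster which contains the present one. -/
def Edge (m : ℕ) (v w : Node L K n) : Prop :=
  (v.1 = w.1 ∧ v.2.1 = w.2.1 ∧ v.2.2.1 = w.2.2.1 ∧ v.2.2.2 = false ∧ w.2.2.2 = true) ∨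
  ((v.1 : ℕ) + 1 = w.1 ∧ (w.2.1 : ℕ) = (v.2.1 : ℕ) / m ∧ v.2.2.2 = true ∧ w.2.2.2 = false)

lemma lev_even {t : ℕ} (h : t + 1 < 2 * (L + 1)) (ht : t % 2 = 0) :
    lev (L := L) ⟨t, by omega⟩ = lev ⟨t + 1, h⟩ := by
  unfold lev
  ext
  simp only
  omega

lemma simplePath_pathOf (id : Fin n) (x : Fut L K) :
    SimplePath (Edge (L := L) (K := K) (n := n) m) (pathOf m id x) := by
  refine ⟨?_, ?_, ?_⟩
  · intro h
    have := length_pathOf (m := m) id x
    rw [h] at this
    simp at this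
  · unfold pathOf
    rw [List.isChain_ofFn]
    intro t ht
    rcases Nat.mod_two_eq_zero_or_one t with h0 | h1
    · left
      have h2 : (t + 1) % 2 = 1 := by omega
      have h3 : ¬ t % 2 = 1 := by omega
      rw [lev_even ht h0]
      simp only [node, h2, h3, decide_true, decide_false, and_self]
    · right
      have h2 : ¬ (t + 1) % 2 = 1 := by omega
      have e1 : ((lev (L := L) ⟨t, by omega⟩ : Fin (L + 1)) : ℕ) = t / 2 := rfl
      have e2 : ((lev (L := L) ⟨t + 1, ht⟩ : Fin (L + 1)) : ℕ) = (t + 1) / 2 := rfl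
      refine ⟨?_, ?_, ?_, ?_⟩
      · simp only [node]
        rw [e1, e2]
        omega
      · simp only [node, clus]
        rw [e1, e2, Nat.div_div_eq_div_mul, ← pow_succ]
        congr 2
        omega
      · simp [node, h1]
      · simp [node, h2]
  · unfold pathOf
    rw [List.nodup_ofFn]
    intro t t' h
    simp only [node, Prod.mk.injEq] at h
    have e1 : ((lev t : Fin (L + 1)) : ℕ) = (t : ℕ) / 2 := rfl
    have e2 : ((lev t' : Fin (L + 1)) : ℕ) = (t' : ℕ) / 2 := rfl
    have e3 : (t : ℕ) / 2 = (t' : ℕ) / 2 := by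
      rw [← e1, ← e2, h.1]
    have e4 : ((t : ℕ) % 2 = 1) ↔ ((t' : ℕ) % 2 = 1) := decide_eq_decide.1 h.2.2.2
    ext
    omega

/-- the assignments of names to the packets of a block which do not cause large congestion -/
def Legal (m L K : ℕ) (Y : Fin (m ^ (L + 1)) → Fut L K) : Prop :=
  (∀ r, ((Y r 0 : Fin K) : ℕ) = 0) ∧ ∀ (l : Fin (L + 1)) (c' : ℕ) (y : Fin K),
    (Finset.univ.filter fun r : Fin (m ^ (L + 1)) => (r : ℕ) / m ^ ((l : ℕ) + 1) = c' ∧
      Y r l = y).card ≤ m

/-- Glue assignments for the blocks together; the packets outside of the full blocks get distinct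
names. -/
def glue (hm : 0 < m) (hK : m ^ (L + 1) ≤ K)
    (Φ : Fin (n / m ^ (L + 1)) → Fin (m ^ (L + 1)) → Fut L K) : Fin n → Fut L K := fun id =>
  if h : (id : ℕ) / m ^ (L + 1) < n / m ^ (L + 1) then
    Φ ⟨(id : ℕ) / m ^ (L + 1), h⟩ ⟨(id : ℕ) % m ^ (L + 1), Nat.mod_lt _ (pow_pos hm _)⟩
  else fun _ => ⟨(id : ℕ) % m ^ (L + 1), (Nat.mod_lt _ (pow_pos hm _)).trans_le hK⟩

lemma pow_split {l : ℕ} (hl : l ≤ L) : m ^ (L + 1) = m ^ (l + 1) * m ^ (L - l) := by
  rw [← pow_add]
  congr 1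
  omega

lemma div_split (hm : 0 < m) {l : ℕ} (hl : l ≤ L) (C r : ℕ) :
    (C * m ^ (L + 1) + r) / m ^ (l + 1) = C * m ^ (L - l) + r / m ^ (l + 1) := by
  rw [pow_split hl, ← mul_assoc, mul_right_comm, Nat.add_comm,
    Nat.add_mul_div_right _ _ (pow_pos hm _), Nat.add_comm]

lemma card_glue (hm : 0 < m) (hK : m ^ (L + 1) ≤ K)
    (Φ : Fin (n / m ^ (L + 1)) → Fin (m ^ (L + 1)) → Fut L K) (hΦ : ∀ c, Legal m L K (Φ c))
    (l : Fin (L + 1)) (C : ℕ) (y : Fin K) :
    (Finset.univ.filter fun id : Fin n => (id : ℕ) / m ^ ((l : ℕ) + 1) = C ∧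
      glue hm hK Φ id l = y).card ≤ m := by
  rcases (Finset.univ.filter fun id : Fin n => (id : ℕ) / m ^ ((l : ℕ) + 1) = C ∧
      glue hm hK Φ id l = y).eq_empty_or_nonempty with h0 | ⟨id₀, h0⟩
  · rw [h0]
    exact Nat.zero_le _
  rw [Finset.mem_filter] at h0
  have hN : 0 < m ^ (L + 1) := pow_pos hm _
  have hll : (l : ℕ) ≤ L := by
    have := l.2
    omega
  have hsame : ∀ id : Fin n, (id : ℕ) / m ^ ((l : ℕ) + 1) = C →
      (id : ℕ) / m ^ (L + 1) = (id₀ : ℕ) / m ^ (L + 1) := by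
    intro id hid
    refine div_of_clus hll ?_
    unfold clus
    ext
    simp only
    rw [hid, h0.2.1]
  have hid_inj : ∀ id id' : Fin n, (id : ℕ) / m ^ ((l : ℕ) + 1) = C →
      (id' : ℕ) / m ^ ((l : ℕ) + 1) = C → (id : ℕ) % m ^ (L + 1) = (id' : ℕ) % m ^ (L + 1) →
      id = id' := by
    intro id id' h h' hmod
    have e1 := Nat.div_add_mod (id : ℕ) (m ^ (L + 1))
    have e2 := Nat.div_add_mod (id' : ℕ) (m ^ (L + 1))
    rw [hsame id h] at e1
    rw [hsame id' h'] at e2
    ext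
    omega
  by_cases hb : (id₀ : ℕ) / m ^ (L + 1) < n / m ^ (L + 1)
  · refine le_trans (Finset.card_le_card_of_injOn (fun id : Fin n =>
      (⟨(id : ℕ) % m ^ (L + 1), Nat.mod_lt _ hN⟩ : Fin (m ^ (L + 1)))) ?_ ?_)
      ((hΦ ⟨_, hb⟩).2 l (C % m ^ (L - (l : ℕ))) y)
    · intro id hid
      rw [Finset.mem_coe, Finset.mem_filter] at hid ⊢
      refine ⟨Finset.mem_univ _, ?_, ?_⟩
      · simp only
        rw [pow_split hll, Nat.mod_mul_right_div_self, hid.2.1]
      · have h1 := hid.2.2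
        unfold glue at h1
        have h2 := hsame id hid.2.1
        rw [dif_pos (by rw [h2]; exact hb)] at h1
        have h3 : (⟨(id : ℕ) / m ^ (L + 1), by rw [h2]; exact hb⟩ : Fin (n / m ^ (L + 1))) =
            ⟨(id₀ : ℕ) / m ^ (L + 1), hb⟩ := Fin.ext h2
        rw [h3] at h1
        exact h1
    · intro id hid id' hid' he
      rw [Finset.mem_coe, Finset.mem_filter] at hid hid'
      exact hid_inj id id' hid.2.1 hid'.2.1 (congrArg Fin.val he)
  · have h1 : (Finset.univ.filter fun id : Fin n => (id : ℕ) / m ^ ((l : ℕ) + 1) = C ∧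
      glue hm hK Φ id l = y).card ≤ 1 := by
      rw [Finset.card_le_one]
      intro id hid id' hid'
      rw [Finset.mem_filter] at hid hid'
      refine hid_inj id id' hid.2.1 hid'.2.1 ?_
      have h1 := hid.2.2
      have h2 := hid'.2.2
      unfold glue at h1 h2
      rw [dif_neg (by rw [hsame id hid.2.1]; exact hb)] at h1
      rw [dif_neg (by rw [hsame id' hid'.2.1]; exact hb)] at h2
      exact congrArg Fin.val (h1.trans h2.symm)
    omega

/-- the paths given by the assignments of the blocks -/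
def paths (hm : 0 < m) (hK : m ^ (L + 1) ≤ K)
    (Φ : Fin (n / m ^ (L + 1)) → Fin (m ^ (L + 1)) → Fut L K) : Fin n → List (Node L K n) :=
  fun id => pathOf m id (glue hm hK Φ id)

lemma congestion_paths (hm : 0 < m) (hK : m ^ (L + 1) ≤ K)
    (Φ : Fin (n / m ^ (L + 1)) → Fin (m ^ (L + 1)) → Fut L K) (hΦ : ∀ c, Legal m L K (Φ c)) :
    congestion (paths hm hK Φ) ≤ m := by
  unfold congestion
  refine Finset.sup_le fun e _ => ?_
  obtain ⟨v, w⟩ := e
  refine le_trans ?_ (card_glue hm hK Φ hΦ v.1 (v.2.1 : ℕ) v.2.2.1)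
  rw [← Set.ncard_coe_finset]
  refine Set.ncard_le_ncard ?_ (Set.toFinite _)
  intro id hid
  refine Finset.mem_coe.2 (Finset.mem_filter.2 ⟨Finset.mem_univ _, ?_⟩)
  have h1 := (List.of_mem_zip hid).1
  obtain ⟨l, b, hv⟩ := (mem_pathOf id _ _).1 h1
  rw [hv]
  exact ⟨rfl, rfl⟩

lemma congestion_paths_ge (hm : 0 < m) (hK : m ^ (L + 1) ≤ K)
    (Φ : Fin (n / m ^ (L + 1)) → Fin (m ^ (L + 1)) → Fut L K) (hΦ : ∀ c, Legal m L K (Φ c))
    (hn : m ^ (L + 1) ≤ n) : m ≤ congestion (paths hm hK Φ) := by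
  have hN : 0 < m ^ (L + 1) := pow_pos hm _
  have hk : 0 < n / m ^ (L + 1) := Nat.div_pos hn hN
  have hmN : m ≤ m ^ (L + 1) := Nat.le_self_pow (by omega) m
  have hKpos : 0 < K := by omega
  have hn0 : 0 < n := by omega
  -- the first `m` packets use the same edge
  have hname : ∀ id : Fin n, (id : ℕ) < m → glue hm hK Φ id 0 = ⟨0, hKpos⟩ := by
    intro id hid
    have h0 : (id : ℕ) / m ^ (L + 1) = 0 := Nat.div_eq_of_lt (by omega)
    unfold glue
    rw [dif_pos (by rw [h0]; exact hk)]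
    exact Fin.ext ((hΦ _).1 _)
  have hnode : ∀ (id : Fin n) (b : Bool), (id : ℕ) < m → node m (0 : Fin (L + 1)) id
      (glue hm hK Φ id 0) b = node m 0 ⟨0, hn0⟩ ⟨0, hKpos⟩ b := by
    intro id b hid
    rw [hname id hid]
    unfold node clus
    simp only [Fin.val_zero, zero_add, pow_one, Nat.div_eq_of_lt hid, Nat.zero_div]
  have hmem : ∀ id : Fin n, (id : ℕ) < m →
      (node (K := K) m (0 : Fin (L + 1)) (⟨0, hn0⟩ : Fin n) ⟨0, hKpos⟩ false,
        node (K := K) m (0 : Fin (L + 1)) (⟨0, hn0⟩ : Fin n) ⟨0, hKpos⟩ true) ∈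
      (paths hm hK Φ id).zip (paths hm hK Φ id).tail := by
    intro id hid
    have h1 := getElem?_even (m := m) id (glue hm hK Φ id) 0
    have h2 := getElem?_odd (m := m) id (glue hm hK Φ id) 0
    rw [hnode id _ hid] at h1 h2
    have h3 : (paths hm hK Φ id)[0]? = some (node m 0 ⟨0, hn0⟩ ⟨0, hKpos⟩ false) := h1
    have h4 : (paths hm hK Φ id)[1]? = some (node m 0 ⟨0, hn0⟩ ⟨0, hKpos⟩ true) := h2
    generalize paths hm hK Φ id = l at h3 h4
    rcases l with - | ⟨a, - | ⟨b, l⟩⟩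
    · simp at h3
    · simp at h4
    · simp only [List.getElem?_cons_zero, Option.some.injEq] at h3
      simp only [List.getElem?_cons_succ, List.getElem?_cons_zero, Option.some.injEq] at h4
      simp [h3, h4]
  have hset : m ≤ {i : Fin n | (node (K := K) m (0 : Fin (L + 1)) (⟨0, hn0⟩ : Fin n) ⟨0, hKpos⟩ false,
        node (K := K) m (0 : Fin (L + 1)) (⟨0, hn0⟩ : Fin n) ⟨0, hKpos⟩ true) ∈
      (paths hm hK Φ i).zip (paths hm hK Φ i).tail}.ncard := by
    have h1 : (Finset.univ.image (fun r : Fin m => (⟨r, by have := r.2; omega⟩ : Fin n))).card = m := by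
      rw [Finset.card_image_of_injective]
      · simp
      · intro a b h
        have h2 := congrArg Fin.val h
        exact Fin.ext h2
    calc m = (Finset.univ.image (fun r : Fin m => (⟨r, by have := r.2; omega⟩ : Fin n))).card :=
          h1.symm
      _ = ((Finset.univ.image (fun r : Fin m => (⟨r, by have := r.2; omega⟩ : Fin n)) :
            Finset (Fin n)) : Set (Fin n)).ncard := (Set.ncard_coe_finset _).symm
      _ ≤ _ := by
          refine Set.ncard_le_ncard ?_ (Set.toFinite _)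
          intro id hid
          obtain ⟨r, -, rfl⟩ := Finset.mem_image.1 (Finset.mem_coe.1 hid)
          exact hmem _ r.2
  refine hset.trans ?_
  unfold congestion
  exact Finset.le_sup (f := fun e : Node L K n × Node L K n =>
    {i : Fin n | e ∈ (paths hm hK Φ i).zip (paths hm hK Φ i).tail}.ncard) (Finset.mem_univ _)

lemma dilation_paths (hm : 0 < m) (hK : m ^ (L + 1) ≤ K)
    (Φ : Fin (n / m ^ (L + 1)) → Fin (m ^ (L + 1)) → Fut L K) (hn : 0 < n) :
    dilation (paths hm hK Φ) = 2 * L + 1 := by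
  have h1 : ∀ id, (paths hm hK Φ id).length - 1 = 2 * L + 1 := by
    intro id
    have : (paths hm hK Φ id).length = 2 * (L + 1) := length_pathOf id _
    rw [this]
    omega
  unfold dilation
  have hne : (Finset.univ : Finset (Fin n)).Nonempty := ⟨⟨0, hn⟩, Finset.mem_univ _⟩
  rw [Finset.sup_congr rfl (fun id _ => h1 id), Finset.sup_const hne]

/-- **Every deterministic protocol has a bad assignment in each block.** -/
lemma exists_bad (hm : 0 < m) (hK : m ^ (L + 1) ≤ K)
    (hC : ∀ (A : Protocol (Node L K n) (Fin n)) (c : ℕ), (c + 1) * m ^ (L + 1) ≤ n →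
      ∃ (X : Fin n → Fut L K) (p : Fin n), Conf A m L c X p)
    (A : Protocol (Node L K n) (Fin n)) (c : Fin (n / m ^ (L + 1))) :
    ∃ Y : Fin (m ^ (L + 1)) → Fut L K, Legal m L K Y ∧
      ∀ Φ : Fin (n / m ^ (L + 1)) → Fin (m ^ (L + 1)) → Fut L K, Φ c = Y →
        ¬ Done A (paths hm hK Φ) (tm m L) := by
  have hN : 0 < m ^ (L + 1) := pow_pos hm _
  have hc : ((c : ℕ) + 1) * m ^ (L + 1) ≤ n := by
    have h1 := c.2
    calc ((c : ℕ) + 1) * m ^ (L + 1) ≤ (n / m ^ (L + 1)) * m ^ (L + 1) :=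
          Nat.mul_le_mul_right _ h1
      _ ≤ n := Nat.div_mul_le_self _ _
  obtain ⟨X, p, hX⟩ := hC A c hc
  have hlt : ∀ r : Fin (m ^ (L + 1)), (c : ℕ) * m ^ (L + 1) + r < n := fun r => by
    have h1 := r.2
    have h2 : ((c : ℕ) + 1) * m ^ (L + 1) = (c : ℕ) * m ^ (L + 1) + m ^ (L + 1) := by ring
    omega
  have hdiv : ∀ r : Fin (m ^ (L + 1)), ((c : ℕ) * m ^ (L + 1) + r) / m ^ (L + 1) = c := fun r => by
    rw [Nat.add_comm, Nat.add_mul_div_right _ _ hN, Nat.div_eq_of_lt r.2, zero_add]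
  refine ⟨fun r => X ⟨(c : ℕ) * m ^ (L + 1) + r, hlt r⟩,
    ⟨fun r => hX.zero _ (hdiv r), ?_⟩, ?_⟩
  · intro l c' y
    have hll : (l : ℕ) ≤ L := by
      have := l.2
      omega
    refine le_trans (Finset.card_le_card_of_injOn (fun r : Fin (m ^ (L + 1)) =>
      (⟨(c : ℕ) * m ^ (L + 1) + r, hlt r⟩ : Fin n)) ?_ ?_)
      (hX.low l hll ((c : ℕ) * m ^ (L - (l : ℕ)) + c') y)
    · intro r hr
      rw [Finset.mem_coe, Finset.mem_filter] at hr ⊢
      refine ⟨Finset.mem_univ _, hdiv r, ?_, hr.2.2⟩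
      simp only
      rw [div_split hm hll, hr.2.1]
    · intro r _ r' _ he
      have := congrArg Fin.val he
      simp only at this
      exact Fin.ext (by omega)
  · intro Φ hΦ hdone
    have hagree : ∀ id : Fin n, (id : ℕ) / m ^ (L + 1) = c → X id = glue hm hK Φ id := by
      intro id hid
      unfold glue
      rw [dif_pos (by rw [hid]; exact c.2)]
      have h3 : (⟨(id : ℕ) / m ^ (L + 1), by rw [hid]; exact c.2⟩ : Fin (n / m ^ (L + 1))) = c :=
        Fin.ext hid
      rw [h3, hΦ]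
      simp only
      congr 1
      ext
      simp only
      have := Nat.div_add_mod (id : ℕ) (m ^ (L + 1))
      rw [hid, Nat.mul_comm] at this
      omega
    have hconf := hX.congr hagree
    have hlate := late_transfer A L c (paths hm hK Φ) (glue hm hK Φ) (fun _ _ => rfl)
      (fun id => Or.inr ⟨_, rfl⟩) (tm m L) (by omega) p hX.hp hconf.late
    have h1 := hdone p
    have h2 : (paths hm hK Φ p).length = 2 * (L + 1) := length_pathOf p _
    rw [h2] at h1
    omega

end Pool.Agent.W959.OR
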