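import Pool.Agent.W959.OR.Base

set_option autoImplicit false

namespace Pool.Agent.W959.OR

variable {m L K n : ℕ}

/-- The invariants of the construction of the children, after `J` stages. -/
structure Inv (A : Protocol (Node L K n) (Fin n)) (m i c : ℕ) (v' : Fin K) (F : Fin m → Fut L K)
    (Zall : Finset (Fin K)) (J : ℕ) (X : Fin n → Fut L K) (p : Fin m → Fin n) : Prop where
  conf : ∀ j : Fin m, (j : ℕ) < J → Conf A m i (c * m + j) X (p j)
  spec : ∀ j : Fin m, (j : ℕ) < J → ∀ l : Fin (L + 1), (l : ℕ) = i + 1 → X (p j) l = v'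
  fut : ∀ j : Fin m, (j : ℕ) < J → ∀ l : Fin (L + 1), i + 1 < (l : ℕ) → X (p j) l = F j l
  av : ∀ j : Fin m, (j : ℕ) < J → ∀ id : Fin n, (id : ℕ) / m ^ (i + 1) = c * m + j → id ≠ p j →
    ∀ l : Fin (L + 1), i < (l : ℕ) → X id l ∉ Zall
  dist : ∀ j j' : Fin m, (j : ℕ) < J → (j' : ℕ) < J → j ≠ j' → ∀ id id' : Fin n,
    (id : ℕ) / m ^ (i + 1) = c * m + j → (id' : ℕ) / m ^ (i + 1) = c * m + j' →
    ∀ l : Fin (L + 1), i + 1 < (l : ℕ) → X id l ≠ X id' l

lemma kid_div {i c j q : ℕ} (hj : j < m) (h : q / m ^ (i + 1) = c * m + j) :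
    q / m ^ (i + 1 + 1) = c := by
  rw [pow_succ m (i + 1), ← Nat.div_div_eq_div_mul, h, Nat.add_comm,
    Nat.add_mul_div_right _ _ (by omega), Nat.div_eq_of_lt hj, zero_add]

lemma exists_kid {i c q : ℕ} (hm : 0 < m) (h : q / m ^ (i + 1 + 1) = c) :
    ∃ j : Fin m, q / m ^ (i + 1) = c * m + j := by
  rw [pow_succ m (i + 1), ← Nat.div_div_eq_div_mul] at h
  refine ⟨⟨q / m ^ (i + 1) % m, Nat.mod_lt _ hm⟩, ?_⟩
  simp only
  have := Nat.div_add_mod (q / m ^ (i + 1)) m
  rw [h, Nat.mul_comm] at this
  exact this.symm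

/-- all names used by the packets of the parent -/
def used (m i c : ℕ) (X : Fin n → Fut L K) : Finset (Fin K) :=
  (Finset.univ.filter fun id : Fin n => (id : ℕ) / m ^ (i + 1 + 1) = c).biUnion fun id =>
    Finset.univ.image (X id)

lemma card_used (hm : 0 < m) (i c : ℕ) (X : Fin n → Fut L K) :
    (used m i c X).card ≤ m ^ (i + 1 + 1) * (L + 1) := by
  refine Finset.card_biUnion_le.trans ?_
  calc ∑ id ∈ Finset.univ.filter (fun id : Fin n => (id : ℕ) / m ^ (i + 1 + 1) = c),
        (Finset.univ.image (X id)).card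
      ≤ ∑ _id ∈ Finset.univ.filter (fun id : Fin n => (id : ℕ) / m ^ (i + 1 + 1) = c), (L + 1) := by
        refine Finset.sum_le_sum fun id _ => Finset.card_image_le.trans ?_
        simp
    _ = (Finset.univ.filter (fun id : Fin n => (id : ℕ) / m ^ (i + 1 + 1) = c)).card * (L + 1) := by
        rw [Finset.sum_const, smul_eq_mul]
    _ ≤ _ := Nat.mul_le_mul_right _ (card_block_le _ _ (pow_pos hm _))

lemma mem_used {i c : ℕ} {X : Fin n → Fut L K} {id : Fin n}
    (h : (id : ℕ) / m ^ (i + 1 + 1) = c) (l : Fin (L + 1)) : X id l ∈ used m i c X := by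
  refine Finset.mem_biUnion.2 ⟨id, ?_, Finset.mem_image_of_mem _ (Finset.mem_univ _)⟩
  simp [h]

/-- The construction of the children. -/
lemma exists_inv (hm : 0 < m) {i c z : ℕ} (A : Protocol (Node L K n) (Fin n)) (v' : Fin K)
    (F : Fin m → Fut L K) (Zall : Finset (Fin K)) (hF : ∀ k, nmAbove (i + 1) (F k) ⊆ Zall)
    (hdis : ∀ k k', k ≠ k' → Disjoint (nmAbove (i + 1) (F k)) (nmAbove (i + 1) (F k')))
    (hz : Zall.card + m ^ (i + 1 + 1) * (L + 1) ≤ z) (H : Fin m → Finset (Fin K))
    (hv' : ∀ j, v' ∉ H j) (hFH : ∀ j, Disjoint (nmAbove (i + 1) (F j)) (H j))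
    (hH : ∀ j : Fin m, ∀ x : Fut L K, (∀ l : Fin (L + 1), i < (l : ℕ) → x l ∉ H j) →
        ∀ Z : Finset (Fin K), Z.card ≤ z → Ach A m i (c * m + j) x Z) (hc : (c + 1) * m ≤ n)
    (J : ℕ) (hJ : J ≤ m) :
    ∃ (X : Fin n → Fut L K) (p : Fin m → Fin n), Inv A m i c v' F Zall J X p := by
  classical
  induction J with
  | zero =>
    have hn : 0 < n := by
      have : (c + 1) * m = c * m + m := by ring
      omega
    exact ⟨fun _ _ => v', fun _ => ⟨0, hn⟩, ⟨fun j hj => absurd hj (Nat.not_lt_zero _),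
      fun j hj => absurd hj (Nat.not_lt_zero _), fun j hj => absurd hj (Nat.not_lt_zero _),
      fun j hj => absurd hj (Nat.not_lt_zero _), fun j _ hj => absurd hj (Nat.not_lt_zero _)⟩⟩
  | succ J ih =>
    obtain ⟨X, p, hI⟩ := ih (by omega)
    set j₀ : Fin m := ⟨J, by omega⟩ with hj₀
    -- the future of the special packet of child `J`
    set x : Fut L K := fun l => if (l : ℕ) = i + 1 then v' else F j₀ l with hx
    have hx1 : ∀ l : Fin (L + 1), (l : ℕ) = i + 1 → x l = v' := fun l hl => by
      rw [hx]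
      simp only
      rw [if_pos hl]
    have hx2 : ∀ l : Fin (L + 1), i + 1 < (l : ℕ) → x l = F j₀ l := fun l hl => by
      rw [hx]
      simp only
      rw [if_neg (by omega)]
    obtain ⟨X₁, p₁, hconf, hfut, hav⟩ := hH j₀ x (by
      intro l hl
      by_cases h : (l : ℕ) = i + 1
      · rw [hx1 l h]
        exact hv' _
      · rw [hx2 l (by omega)]
        exact Finset.disjoint_left.1 (hFH j₀) (mem_nmAbove (by omega)))
      (Zall ∪ used m i c X) (by
        have h1 := Finset.card_union_le Zall (used m i c X)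
        have h2 := card_used (L := L) (K := K) hm i c X
        omega)
    -- the new names
    set X' : Fin n → Fut L K := fun id =>
      if (id : ℕ) / m ^ (i + 1) = c * m + j₀ then X₁ id else X id with hX'
    have hXn : ∀ id : Fin n, (id : ℕ) / m ^ (i + 1) = c * m + j₀ → X' id = X₁ id := fun id h => by
      rw [hX']
      simp only
      rw [if_pos h]
    have hXo : ∀ j : Fin m, (j : ℕ) < J → ∀ id : Fin n, (id : ℕ) / m ^ (i + 1) = c * m + j →
        X' id = X id := fun j hj id h => by
      rw [hX']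
      simp only
      rw [if_neg]
      rw [h, hj₀]
      simp only
      omega
    have hpn : Function.update p j₀ p₁ j₀ = p₁ := Function.update_self _ _ _
    have hpo : ∀ j : Fin m, (j : ℕ) < J → Function.update p j₀ p₁ j = p j := fun j hj => by
      rw [Function.update_of_ne]
      intro h
      rw [h, hj₀] at hj
      simp at hj
    have hcase : ∀ j : Fin m, (j : ℕ) < J + 1 → (j : ℕ) < J ∨ j = j₀ := fun j hj => by
      rcases Nat.lt_succ_iff_lt_or_eq.1 hj with h | h
      · exact Or.inl h
      · exact Or.inr (Fin.ext h)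
    -- distinctness between an old child and the new one
    have key : ∀ j : Fin m, (j : ℕ) < J → ∀ id id' : Fin n,
        (id : ℕ) / m ^ (i + 1) = c * m + j → (id' : ℕ) / m ^ (i + 1) = c * m + j₀ →
        ∀ l : Fin (L + 1), i + 1 < (l : ℕ) → X id l ≠ X₁ id' l := by
      intro j hj id id' hid hid' l hl he
      have hjj : j ≠ j₀ := by
        rintro rfl
        rw [hj₀] at hj
        simp at hj
      by_cases hs : id' = p₁
      · rw [hs, hfut l (by omega), hx2 l hl] at he
        by_cases hs' : id = p j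
        · rw [hs', hI.fut j hj l hl] at he
          refine Finset.disjoint_left.1 (hdis _ _ hjj) (mem_nmAbove hl) ?_
          rw [he]
          exact mem_nmAbove hl
        · refine hI.av j hj id hid hs' l (by omega) (hF j₀ ?_)
          rw [he]
          exact mem_nmAbove hl
      · refine hav id' hid' hs l (by omega) (Finset.mem_union_right _ ?_)
        rw [← he]
        exact mem_used (kid_div j.2 hid) l
    refine ⟨X', Function.update p j₀ p₁, ⟨?_, ?_, ?_, ?_, ?_⟩⟩
    · intro j hj
      rcases hcase j hj with h | rfl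
      · rw [hpo j h]
        exact (hI.conf j h).congr (fun id hid => (hXo j h id hid).symm)
      · rw [hpn]
        exact hconf.congr (fun id hid => (hXn id hid).symm)
    · intro j hj l hl
      rcases hcase j hj with h | rfl
      · rw [hpo j h, hXo j h _ (hI.conf j h).hp]
        exact hI.spec j h l hl
      · rw [hpn, hXn _ hconf.hp, hfut l (by omega), hx1 l hl]
    · intro j hj l hl
      rcases hcase j hj with h | rfl
      · rw [hpo j h, hXo j h _ (hI.conf j h).hp]
        exact hI.fut j h l hl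
      · rw [hpn, hXn _ hconf.hp, hfut l (by omega), hx2 l hl]
    · intro j hj id hid hne l hl
      rcases hcase j hj with h | rfl
      · rw [hpo j h] at hne
        rw [hXo j h _ hid]
        exact hI.av j h id hid hne l hl
      · rw [hpn] at hne
        rw [hXn _ hid]
        exact fun hmem => hav id hid hne l hl (Finset.mem_union_left _ hmem)
    · intro j j' hj hj' hjj id id' hid hid' l hl
      rcases hcase j hj with h | h
      · rcases hcase j' hj' with h' | h'
        · rw [hXo j h _ hid, hXo j' h' _ hid']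
          exact hI.dist j j' h h' hjj id id' hid hid' l hl
        · rw [h'] at hid'
          rw [hXo j h _ hid, hXn _ hid']
          exact key j h id id' hid hid' l hl
      · rcases hcase j' hj' with h' | h'
        · rw [h] at hid
          rw [hXn _ hid, hXo j' h' _ hid']
          exact (key j' h' id' id hid' hid l hl).symm
        · exact absurd (h.trans h'.symm) hjj

/-- The step of the induction. -/
lemma claim_succ (hm : 0 < m) {i : ℕ} (hi : i + 1 ≤ L) (z h' : ℕ)
    (hh' : Claim m L i (m * z + m * (L + 1) + m ^ (i + 1 + 1) * (L + 1)) h') :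
    Claim m L (i + 1) z (m * h' + m * (z + 1) * (L + 1 + z)) := by
  classical
  intro K n hK A c hc
  have hkid : ∀ j : Fin m, (c * m + j + 1) * m ^ (i + 1) ≤ n := fun j => by
    refine le_trans ?_ hc
    rw [pow_succ m (i + 1), mul_comm (m ^ (i + 1)) m, ← mul_assoc]
    refine Nat.mul_le_mul_right _ ?_
    have := j.2
    have : (c + 1) * m = c * m + m := by ring
    omega
  have hh'K : h' < K := by
    have : h' ≤ m * h' := Nat.le_mul_of_pos_left _ hm
    omega
  choose H hHc hH using fun j : Fin m => hh' K n hh'K A (c * m + j) (hkid j)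
  set H₀ : Finset (Fin K) := Finset.univ.biUnion H with hH₀
  have hH₀c : H₀.card ≤ m * h' := by
    refine Finset.card_biUnion_le.trans ((Finset.sum_le_sum fun j _ => hHc j).trans ?_)
    simp
  have hsubH : ∀ j, H j ⊆ H₀ := fun j => Finset.subset_biUnion_of_mem H (Finset.mem_univ j)
  by_contra hcon
  push Not at hcon
  obtain ⟨F, Z, hbad, hdis0, hdis, hdisZ⟩ := select (nmAbove (L := L) (K := K) (i + 1)) (L + 1) z
    (card_nmAbove _) H₀ (fun x Z => Z.card ≤ z ∧ ¬ Ach A m (i + 1) c x Z) (fun _ _ h => h.1) m (by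
      intro H' _ hH'
      obtain ⟨x, hx, Z, hZ, hA⟩ := hcon H' (by omega)
      refine ⟨x, Z, ⟨hZ, hA⟩, ?_⟩
      rw [Finset.disjoint_left]
      intro y hy hyH
      obtain ⟨l, hl, rfl⟩ := Finset.mem_image.1 hy
      rw [Finset.mem_filter] at hl
      exact hx l hl.2 hyH)
  -- the common node of the special packets
  obtain ⟨v', hv'⟩ : ∃ v' : Fin K, v' ∉ H₀ := by
    by_contra hall
    push Not at hall
    have h1 : H₀ = Finset.univ := Finset.eq_univ_iff_forall.2 hall
    rw [h1, Finset.card_univ, Fintype.card_fin] at hH₀c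
    omega
  set Zall : Finset (Fin K) := Finset.univ.biUnion Z ∪
    Finset.univ.biUnion (fun k => nmAbove (i + 1) (F k)) with hZall
  have hZc : Zall.card ≤ m * z + m * (L + 1) := by
    have h1 : (Finset.univ.biUnion Z).card ≤ m * z := by
      refine Finset.card_biUnion_le.trans ((Finset.sum_le_sum fun j _ => (hbad j).1).trans ?_)
      simp
    have h2 : (Finset.univ.biUnion (fun k => nmAbove (i + 1) (F k))).card ≤ m * (L + 1) := by
      refine Finset.card_biUnion_le.trans
        ((Finset.sum_le_sum fun j _ => card_nmAbove (i + 1) (F j)).trans ?_)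
      simp
    have h3 := Finset.card_union_le (Finset.univ.biUnion Z)
      (Finset.univ.biUnion (fun k => nmAbove (i + 1) (F k)))
    rw [hZall]
    omega
  have hFZ : ∀ k, nmAbove (i + 1) (F k) ⊆ Zall := fun k =>
    (Finset.subset_biUnion_of_mem (fun k => nmAbove (i + 1) (F k)) (Finset.mem_univ k)).trans
      Finset.subset_union_right
  have hZZ : ∀ k, Z k ⊆ Zall := fun k =>
    (Finset.subset_biUnion_of_mem Z (Finset.mem_univ k)).trans Finset.subset_union_left
  have hcm : (c + 1) * m ≤ n := by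
    refine le_trans ?_ hc
    exact Nat.mul_le_mul_left _ (Nat.le_self_pow (by omega) m)
  obtain ⟨X, p, hI⟩ := exists_inv hm A v' F Zall hFZ hdis (z := m * z + m * (L + 1) +
    m ^ (i + 1 + 1) * (L + 1)) (by omega) H (fun j h => hv' (hsubH j h))
    (fun j => (hdis0 j).mono_right (hsubH j)) hH hcm m le_rfl
  -- the special packets
  have hpk : ∀ j : Fin m, ((p j : Fin n) : ℕ) / m ^ (i + 1) = c * m + j := fun j =>
    (hI.conf j j.2).hp
  have hpc : ∀ j : Fin m, ((p j : Fin n) : ℕ) / m ^ (i + 1 + 1) = c := fun j =>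
    kid_div j.2 (hpk j)
  have hinj : Function.Injective p := by
    intro j j' h
    have h1 := hpk j
    rw [h, hpk j'] at h1
    exact Fin.ext (by omega)
  set P := coll (L := L) (K := K) m (i + 1) c X with hP
  have hPj : ∀ j : Fin m, P (p j) = pathOf m (p j) (X (p j)) := fun j => coll_pos (hpc j)
  -- none of them has crossed the common edge at time `(i + 1) (m + 1)`
  have hlate0 : ∀ j : Fin m, (run A P (tm m i)).pos (p j) ≤ 2 * i := by
    intro j
    refine late_transfer A i (c * m + j) P X ?_ ?_ _ (by omega) (p j) (hpk j) (hI.conf j j.2).late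
    · intro id hid
      exact coll_pos (kid_div j.2 hid)
    · intro id
      by_cases h : (id : ℕ) / m ^ (i + 1 + 1) = c
      · exact Or.inr ⟨_, coll_pos h⟩
      · exact Or.inl (coll_neg h)
  have htm : tm m i + 2 = (i + 1) * (m + 1) := by
    unfold tm
    have : (i + 1) * (m + 1) = i * (m + 1) + (m + 1) := by ring
    omega
  have hlate1 : ∀ j : Fin m, (run A P ((i + 1) * (m + 1))).pos (p j) ≤ 2 * (i + 1) := by
    intro j
    rw [← htm]
    have h1 := pos_add_le A P (tm m i) 2 (p j)
    have h2 := hlate0 j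
    omega
  set l₀ : Fin (L + 1) := ⟨i + 1, by omega⟩ with hl₀
  have hnode : ∀ (j : Fin m) (b : Bool), node (K := K) m l₀ (p j) v' b =
      node m l₀ (p ⟨0, hm⟩) v' b := by
    intro j b
    unfold node clus
    simp only [hl₀, hpc]
  have hcap := capacity A P (Finset.univ.image p) (2 * (i + 1))
    (node m l₀ (p ⟨0, hm⟩) v' false) (node m l₀ (p ⟨0, hm⟩) v' true) (by
      intro id hid
      obtain ⟨j, -, rfl⟩ := Finset.mem_image.1 hid
      rw [hPj j, ← hnode j, ← hI.spec j j.2 l₀ rfl]
      exact getElem?_even (p j) (X (p j)) l₀) (by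
      intro id hid
      obtain ⟨j, -, rfl⟩ := Finset.mem_image.1 hid
      rw [hPj j, ← hnode j, ← hI.spec j j.2 l₀ rfl]
      exact getElem?_odd (p j) (X (p j)) l₀) ((i + 1) * (m + 1)) (by
      intro id hid
      obtain ⟨j, -, rfl⟩ := Finset.mem_image.1 hid
      exact hlate1 j) (m - 1)
  have hS : (Finset.univ.image p).card = m := by
    rw [Finset.card_image_of_injective _ hinj]
    simp
  obtain ⟨q, hqS, hq⟩ : ∃ q ∈ Finset.univ.image p,
      (run A P ((i + 1) * (m + 1) + (m - 1))).pos q ≤ 2 * (i + 1) := by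
    by_contra hno
    push Not at hno
    have hall : ((Finset.univ.image p).filter
        fun q => 2 * (i + 1) + 1 ≤ (run A P ((i + 1) * (m + 1) + (m - 1))).pos q) =
        Finset.univ.image p :=
      Finset.filter_true_of_mem (fun q hq => hno q hq)
    rw [hall, hS] at hcap
    omega
  obtain ⟨j, -, rfl⟩ := Finset.mem_image.1 hqS
  -- the configuration of the parent
  refine (hbad j).2 ⟨X, p j, ⟨hpc j, ?_, ?_, ?_, hq⟩, fun l hl => hI.fut j j.2 l hl, ?_⟩
  · intro id hid
    obtain ⟨j', hj'⟩ := exists_kid hm hid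
    exact (hI.conf j' j'.2).zero id hj'
  · intro l hl c' y
    rcases Nat.lt_or_ge i (l : ℕ) with hil | hil
    · -- level `i + 1`
      have hmap : ∀ id ∈ Finset.univ.filter (fun id : Fin n => (id : ℕ) / m ^ (i + 1 + 1) = c ∧
          (id : ℕ) / m ^ ((l : ℕ) + 1) = c' ∧ X id l = y),
          (id : ℕ) / m ^ (i + 1) ∈ Finset.Ico (c * m) (c * m + m) := by
        intro id hid
        rw [Finset.mem_filter] at hid
        obtain ⟨j', hj'⟩ := exists_kid hm hid.2.1
        rw [hj', Finset.mem_Ico]
        have := j'.2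
        omega
      have := Finset.card_le_card_of_injOn (fun id : Fin n => (id : ℕ) / m ^ (i + 1)) hmap (by
        intro id hid id' hid' he
        rw [Finset.mem_coe, Finset.mem_filter] at hid hid'
        obtain ⟨j', hj'⟩ := exists_kid hm hid.2.1
        have he' : (id : ℕ) / m ^ (i + 1) = (id' : ℕ) / m ^ (i + 1) := he
        refine (hI.conf j' j'.2).high l hil id id' hj' (he' ▸ hj') ?_
        rw [hid.2.2.2, hid'.2.2.2])
      rw [Nat.card_Ico] at this
      omega
    · -- lower levels
      rcases (Finset.univ.filter (fun id : Fin n => (id : ℕ) / m ^ (i + 1 + 1) = c ∧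
          (id : ℕ) / m ^ ((l : ℕ) + 1) = c' ∧ X id l = y)).eq_empty_or_nonempty with h0 | ⟨id₀, h0⟩
      · rw [h0]
        exact Nat.zero_le _
      · rw [Finset.mem_filter] at h0
        obtain ⟨j', hj'⟩ := exists_kid hm h0.2.1
        refine le_trans (Finset.card_le_card ?_) ((hI.conf j' j'.2).low l hil c' y)
        intro id hid
        rw [Finset.mem_filter] at hid ⊢
        refine ⟨hid.1, ?_, hid.2.2.1, hid.2.2.2⟩
        rw [← hj']
        refine div_of_clus hil ?_
        unfold clus
        ext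
        simp only
        rw [hid.2.2.1, h0.2.2.1]
  · intro l hl id id' hid hid' he
    obtain ⟨j₁, hj₁⟩ := exists_kid hm hid
    obtain ⟨j₂, hj₂⟩ := exists_kid hm hid'
    by_cases hjj : j₁ = j₂
    · rw [← hjj] at hj₂
      exact (hI.conf j₁ j₁.2).high l (by omega) id id' hj₁ hj₂ he
    · exact absurd he (hI.dist j₁ j₂ j₁.2 j₂.2 hjj id id' hj₁ hj₂ l hl)
  · intro id hid hne l hl
    obtain ⟨j', hj'⟩ := exists_kid hm hid
    by_cases hs : id = p j'
    · have hjj : j' ≠ j := by
        rintro rfl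
        exact hne hs
      rw [hs, hI.fut j' j'.2 l hl]
      exact Finset.disjoint_left.1 (hdisZ _ _ hjj) (mem_nmAbove hl)
    · exact fun hmem => hI.av j' j'.2 id hj' hs l (by omega) (hZZ j hmem)

lemma Claim.mono {i z z' h h' : ℕ} (hc : Claim m L i z h) (hz : z' ≤ z) (hh : h ≤ h') :
    Claim m L i z' h' := by
  intro K n hK A c hcn
  obtain ⟨H, hH, hx⟩ := hc K n (by omega) A c hcn
  exact ⟨H, by omega, fun x hxH Z hZ => hx x hxH Z (by omega)⟩

/-- the base of our bounds -/
def bb (m L : ℕ) : ℕ := 4 * (L + 1) * m ^ (L + 1)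

lemma bb_ge (hm : 0 < m) : 4 * (L + 1) ≤ bb m L := by
  unfold bb
  exact Nat.le_mul_of_pos_right _ (pow_pos hm _)

lemma bb_ge' : 4 * m ≤ bb m L := by
  unfold bb
  have h1 : m ≤ m ^ (L + 1) := Nat.le_self_pow (by omega) m
  have h2 : 4 ≤ 4 * (L + 1) := by omega
  exact Nat.mul_le_mul h2 h1

theorem claim_all (hm : 0 < m) (i : ℕ) (hi : i ≤ L) :
    Claim m L i (bb m L ^ (L - i)) (bb m L ^ (2 * L + 1 + i)) := by
  have h4 := bb_ge (L := L) hm
  have h4' := bb_ge' (m := m) (L := L)
  have hb1 : 1 ≤ bb m L := by omega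
  have hbL : L + 1 ≤ bb m L := by omega
  induction i with
  | zero =>
    refine (claim_zero (L := L) hm (bb m L ^ L)).mono (by simp) ?_
    rcases Nat.eq_zero_or_pos L with rfl | hL
    · have h1 : bb m 0 ^ (2 * 0 + 1 + 0) = bb m 0 := by norm_num
      rw [h1, pow_zero]
      omega
    have h1 : 1 ≤ bb m L ^ L := Nat.one_le_pow _ _ hb1
    have h2 : L + 1 ≤ bb m L ^ L := hbL.trans (Nat.le_self_pow (by omega) _)
    calc m * (bb m L ^ L + 1) * (L + 1 + bb m L ^ L)
        ≤ m * (2 * bb m L ^ L) * (2 * bb m L ^ L) := by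
          gcongr <;> omega
      _ = 4 * m * bb m L ^ (2 * L) := by ring
      _ ≤ bb m L * bb m L ^ (2 * L) := Nat.mul_le_mul_right _ h4'
      _ = bb m L ^ (2 * L + 1 + 0) := by ring
  | succ i ih =>
    have h1 : 1 ≤ bb m L ^ (L - (i + 1)) := Nat.one_le_pow _ _ hb1
    refine (claim_succ hm hi (bb m L ^ (L - (i + 1))) (bb m L ^ (2 * L + 1 + i))
      ((ih (by omega)).mono ?_ le_rfl)).mono le_rfl ?_
    · -- the sizes of the sets to be avoided
      have e1 : L - i = (L - (i + 1)) + 1 := by omega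
      rw [e1, pow_succ (bb m L)]
      have h2 : m * (L + 1) + m ^ (i + 1 + 1) * (L + 1) ≤ 2 * ((L + 1) * m ^ (L + 1)) := by
        have h3 : m ≤ m ^ (L + 1) := Nat.le_self_pow (by omega) m
        have h5 : m ^ (i + 1 + 1) ≤ m ^ (L + 1) := Nat.pow_le_pow_right hm (by omega)
        have h6 : m * (L + 1) ≤ m ^ (L + 1) * (L + 1) := Nat.mul_le_mul_right _ h3
        have h7 : m ^ (i + 1 + 1) * (L + 1) ≤ m ^ (L + 1) * (L + 1) := Nat.mul_le_mul_right _ h5
        have h8 : 2 * ((L + 1) * m ^ (L + 1)) = m ^ (L + 1) * (L + 1) + m ^ (L + 1) * (L + 1) := by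
          ring
        omega
      have h9 : 4 * ((L + 1) * m ^ (L + 1)) = bb m L := by
        unfold bb
        ring
      have h10 : 4 * (m * bb m L ^ (L - (i + 1))) ≤ bb m L * bb m L ^ (L - (i + 1)) := by
        rw [← mul_assoc]
        exact Nat.mul_le_mul_right _ h4'
      have h11 : bb m L * 1 ≤ bb m L * bb m L ^ (L - (i + 1)) := Nat.mul_le_mul_left _ h1
      have h12 : bb m L ^ (L - (i + 1)) * bb m L = bb m L * bb m L ^ (L - (i + 1)) := mul_comm _ _
      rw [h12]
      omega
    · -- the size of the hitting set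
      have e2 : 2 * L + 1 + (i + 1) = (2 * L + 1 + i) + 1 := by ring
      rw [e2, pow_succ (bb m L)]
      have h2 : 4 * (m * bb m L ^ (2 * L + 1 + i)) ≤ bb m L * bb m L ^ (2 * L + 1 + i) := by
        rw [← mul_assoc]
        exact Nat.mul_le_mul_right _ h4'
      have h3 : bb m L ^ (L - (i + 1)) + 1 ≤ bb m L ^ L := by
        have h5 : bb m L ^ (L - (i + 1)) * bb m L ≤ bb m L ^ L := by
          rw [← pow_succ]
          exact Nat.pow_le_pow_right hb1 (by omega)
        have h6 : bb m L ^ (L - (i + 1)) * 4 ≤ bb m L ^ (L - (i + 1)) * bb m L :=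
          Nat.mul_le_mul_left _ (by omega)
        omega
      have h5 : L + 1 + bb m L ^ (L - (i + 1)) ≤ 2 * bb m L ^ L := by
        have h6 : bb m L ^ 1 ≤ bb m L ^ L := Nat.pow_le_pow_right hb1 (by omega)
        rw [pow_one] at h6
        omega
      have h7 : m * (bb m L ^ (L - (i + 1)) + 1) * (L + 1 + bb m L ^ (L - (i + 1))) ≤
          m * (bb m L ^ L) * (2 * bb m L ^ L) := by
        gcongr
      have h8 : m * (bb m L ^ L) * (2 * bb m L ^ L) * 2 = 4 * m * bb m L ^ (2 * L) := by ring
      have h9 : 4 * m * bb m L ^ (2 * L) ≤ bb m L * bb m L ^ (2 * L) := Nat.mul_le_mul_right _ h4'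
      have h10 : bb m L * bb m L ^ (2 * L) ≤ bb m L ^ (2 * L + 1 + i) := by
        rw [← pow_succ']
        exact Nat.pow_le_pow_right hb1 (by omega)
      have h11 : bb m L ^ (2 * L + 1 + i) * bb m L = bb m L * bb m L ^ (2 * L + 1 + i) :=
        mul_comm _ _
      have h12 : bb m L ^ (2 * L + 1 + i) * 4 ≤ bb m L ^ (2 * L + 1 + i) * bb m L :=
        Nat.mul_le_mul_left _ (by omega)
      omega

end Pool.Agent.W959.OR
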